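import Pool.Agent.CG.C.Osc

/-!
# CG-C-Decay (helper66): oscillation decay and local bounds for quasi-solutions

PLAN.
* `bdd_local`: `dg_sup` at level `0` for `v` and `-v` on `B x R`: `(v_+)², ((-v)_+)² ≤ C R^{-Q} ∫ v²`.
* `osc_step`: `ρ = 4 R'`, i.e. `R' = ρ/4`; `k = (m₀ + M₀)/2`.  If `m₀ = M₀` trivial.  Either `|B y R' ∩ {v ≤ k}| ≥ (1/2) |B y R'|`: `dg_osc` for `v`
  (`θ = 1/2`, `k0 = k`) gives `v ≤ M₀ - c (M₀ - k) = M₀ - (c/2)(M₀ - m₀)` on `B y (R'/2) = B y (ρ/8)`; or `|B y R' ∩ {-v ≤ -k}| ≥ (1/2) |B y R'|` (the two sets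
  cover the ball): `dg_osc` for `-v` with `M = -m₀`.  `κ = 1 - c/2` (increase it to be `≥ 1/2`).
* `osc_iter`: induction on `n`.
-/

set_option autoImplicit false

namespace Pool.Agent.CG

open MeasureTheory Set Filter Topology
open scoped ContDiff ENNReal

variable {N m : ℕ}

/-- `v` and `-v` are in the De Giorgi class at all levels. -/
def DG2 (G : Carnot N m) (Ω : Set (Pt N)) (v : Pt N → ℝ) (V : Pt N → Hv m) (C1 : ℝ) : Prop :=
  (∀ k0 : ℝ, DG G Ω v V k0 C1) ∧ ∀ k0 : ℝ, DG G Ω (fun y => -v y) (fun y => -V y) k0 C1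

theorem DG2.mono {G : Carnot N m} {Ω Ω' : Set (Pt N)} {v : Pt N → ℝ} {V : Pt N → Hv m} {C1 : ℝ}
    (h : DG2 G Ω v V C1) (hs : Ω' ⊆ Ω) : DG2 G Ω' v V C1 :=
  ⟨fun k0 => (h.1 k0).mono hs le_rfl le_rfl, fun k0 => (h.2 k0).mono hs le_rfl le_rfl⟩

private theorem B_mono' {G : Carnot N m} {r r' : ℝ} (h : r ≤ r') (x : Pt N) : G.B x r ⊆ G.B x r' :=
  fun _ hy => lt_of_lt_of_le (show G.di x _ < r from hy) h

/-- local integrability implies measurability on the ball -/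
private theorem aesm_ball {G : Carnot N m} {x : Pt N} {R : ℝ} {f : Pt N → ℝ}
    (h : LqLoc 2 (G.B x R) f) : AEStronglyMeasurable f (volume.restrict (G.B x R)) := by
  have hU : G.B x R = ⋃ n : ℕ, {y | G.di x y ≤ R - 1 / ((n : ℝ) + 1)} := by
    ext y
    rw [mem_iUnion]
    constructor
    · intro hy
      have hy' : 0 < R - G.di x y := sub_pos.2 hy
      obtain ⟨n, hn⟩ := exists_nat_one_div_lt hy'
      refine ⟨n, ?_⟩
      change G.di x y ≤ R - 1 / ((n : ℝ) + 1)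
      linarith
    · rintro ⟨n, hn⟩
      have hn' : G.di x y ≤ R - 1 / ((n : ℝ) + 1) := hn
      have : (0 : ℝ) < 1 / ((n : ℝ) + 1) := by positivity
      change G.di x y < R
      linarith
  rw [hU, aestronglyMeasurable_iUnion_iff]
  intro n
  refine (h _ (G.isCompact_cB x _) ?_).aestronglyMeasurable
  rw [hU]
  exact subset_iUnion (fun n : ℕ => {y | G.di x y ≤ R - 1 / ((n : ℝ) + 1)}) n

private theorem half_bound {G : Carnot N m} {x : Pt N} {R : ℝ} {f : Pt N → ℝ}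
    (h : LqLoc 2 (G.B x R) f) (hi : IntegrableOn (fun y => f y ^ 2) (G.B x R)) :
    IntegrableOn (fun y => (max (f y - 0) 0) ^ 2) (G.B x R) ∧
      ∫ y in G.B x R, (max (f y - 0) 0) ^ 2 ≤ ∫ y in G.B x R, f y ^ 2 := by
  have hpt : ∀ y, (max (f y - 0) 0) ^ 2 ≤ f y ^ 2 := by
    intro y
    rw [sub_zero]
    rcases le_total (f y) 0 with h0 | h0
    · rw [max_eq_right h0]
      have := sq_nonneg (f y)
      simpa using this
    · rw [max_eq_left h0]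
  have h1 : IntegrableOn (fun y => (max (f y - 0) 0) ^ 2) (G.B x R) := by
    refine Integrable.mono' hi ?_ (Eventually.of_forall fun y => ?_)
    · exact ((((aesm_ball h).sub aestronglyMeasurable_const)).sup aestronglyMeasurable_const).pow 2
    · rw [Real.norm_eq_abs, abs_of_nonneg (by positivity)]
      exact hpt y
  exact ⟨h1, integral_mono h1 hi hpt⟩

theorem bdd_local (G : Carnot N m) (C1 : ℝ) : ∃ C : ℝ, 0 < C ∧ ∀ (x : Pt N) (R : ℝ), 0 < R →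
    ∀ (v : Pt N → ℝ) (V : Pt N → Hv m), DG2 G (G.B x R) v V C1 →
    IntegrableOn (fun y => v y ^ 2) (G.B x R) →
    ∀ᵐ y, y ∈ G.B x (R / 2) → v y ^ 2 ≤ C * (R⁻¹ ^ G.Q * ∫ z in G.B x R, v z ^ 2) := by
  obtain ⟨C, hC, hsup⟩ := dg_sup G C1
  refine ⟨C, hC, ?_⟩
  intro x R hR v V hv hi
  have hi' : IntegrableOn (fun y => (-v y) ^ 2) (G.B x R) := by
    simpa using hi
  obtain ⟨h1, h1'⟩ := half_bound (hv.1 0).lq hi
  obtain ⟨h2, h2'⟩ := half_bound (f := fun y => -v y) (hv.2 0).lq hi'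
  have e1 := hsup x R hR v V 0 0 (hv.1 0) le_rfl h1
  have e2 := hsup x R hR (fun y => -v y) (fun y => -V y) 0 0 (hv.2 0) le_rfl h2
  have h3 : ∫ z in G.B x R, (-v z) ^ 2 = ∫ z in G.B x R, v z ^ 2 := by simp
  rw [h3] at h2'
  have hR' : 0 ≤ R⁻¹ ^ G.Q := by positivity
  filter_upwards [e1, e2] with y e1 e2 hy
  rcases le_total 0 (v y) with h0 | h0
  · have e3 := e1 hy
    rw [sub_zero, max_eq_left h0] at e3
    refine e3.trans (mul_le_mul_of_nonneg_left (mul_le_mul_of_nonneg_left h1' hR') hC.le)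
  · have e3 := e2 hy
    rw [sub_zero, max_eq_left (neg_nonneg.2 h0), neg_sq] at e3
    refine e3.trans (mul_le_mul_of_nonneg_left (mul_le_mul_of_nonneg_left h2' hR') hC.le)

theorem osc_step (G : Carnot N m) (C1 : ℝ) : ∃ κ : ℝ, 1 / 2 ≤ κ ∧ κ < 1 ∧ ∀ (y : Pt N) (ρ : ℝ), 0 < ρ →
    ∀ (v : Pt N → ℝ) (V : Pt N → Hv m), DG2 G (G.B y ρ) v V C1 → ∀ (m₀ M₀ : ℝ), m₀ ≤ M₀ →
    (∀ᵐ z, z ∈ G.B y ρ → m₀ ≤ v z ∧ v z ≤ M₀) →
    ∃ m₁ M₁ : ℝ, m₀ ≤ m₁ ∧ m₁ ≤ M₁ ∧ M₁ ≤ M₀ ∧ M₁ - m₁ ≤ κ * (M₀ - m₀) ∧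
      ∀ᵐ z, z ∈ G.B y (ρ / 8) → m₁ ≤ v z ∧ v z ≤ M₁ := by
  obtain ⟨c, hc0, hc1, hosc⟩ := dg_osc G C1 (1 / 2) (by norm_num)
  refine ⟨1 - c / 2, by linarith, by linarith, ?_⟩
  intro y ρ hρ v V hv m₀ M₀ hmM hb
  have hsub : G.B y (ρ / 8) ⊆ G.B y ρ := B_mono' (by linarith) y
  rcases hmM.eq_or_lt with heq | hlt
  · refine ⟨m₀, M₀, le_rfl, hmM, le_rfl, by rw [heq]; simp, ?_⟩
    filter_upwards [hb] with z hz hz'
    exact hz (hsub hz')
  · set k : ℝ := (m₀ + M₀) / 2 with hk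
    have hR : 0 < ρ / 4 := by positivity
    have h4 : 4 * (ρ / 4) = ρ := by ring
    have h8 : ρ / 4 / 2 = ρ / 8 := by ring
    have hfin : volume (G.B y (ρ / 4)) ≠ ⊤ := (G.vol_B_lt_top y (ρ / 4)).ne
    have hcov : volume.real (G.B y (ρ / 4)) ≤
        volume.real (G.B y (ρ / 4) ∩ {z | v z ≤ k}) +
          volume.real (G.B y (ρ / 4) ∩ {z | -v z ≤ -k}) := by
      refine le_trans (measureReal_mono ?_ ?_) (measureReal_union_le _ _)
      · intro z hz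
        rcases le_total (v z) k with h | h
        · exact Or.inl ⟨hz, h⟩
        · exact Or.inr ⟨hz, neg_le_neg h⟩
      · refine ((measure_mono ?_).trans_lt (G.vol_B_lt_top y (ρ / 4))).ne
        rintro z (hz | hz)
        · exact hz.1
        · exact hz.1
    rcases le_or_gt (1 / 2 * volume.real (G.B y (ρ / 4)))
        (volume.real (G.B y (ρ / 4) ∩ {z | v z ≤ k})) with hA | hA
    · have h1 := hosc y (ρ / 4) hR v V k k M₀ (by rw [h4]; exact hv.1 k) le_rfl (by linarith)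
        (by
          rw [h4]
          filter_upwards [hb] with z hz hz'
          exact (hz hz').2) hA
      rw [h8] at h1
      have hcm : c * (M₀ - m₀) < M₀ - m₀ := by nlinarith
      refine ⟨m₀, M₀ - c * (M₀ - k), le_rfl, ?_, ?_, ?_, ?_⟩
      · rw [hk]
        nlinarith
      · rw [hk]
        nlinarith
      · rw [hk]
        apply le_of_eq
        ring
      · filter_upwards [hb, h1] with z hz hz1 hz'
        exact ⟨(hz (hsub hz')).1, hz1 hz'⟩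
    · have hB : 1 / 2 * volume.real (G.B y (ρ / 4)) ≤
          volume.real (G.B y (ρ / 4) ∩ {z | -v z ≤ -k}) := by linarith
      have h1 := hosc y (ρ / 4) hR (fun z => -v z) (fun z => -V z) (-k) (-k) (-m₀)
        (by rw [h4]; exact hv.2 (-k)) le_rfl (by linarith)
        (by
          rw [h4]
          filter_upwards [hb] with z hz hz'
          exact neg_le_neg (hz hz').1) hB
      rw [h8] at h1
      have hcm : c * (M₀ - m₀) < M₀ - m₀ := by nlinarith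
      refine ⟨m₀ + c * (k - m₀), M₀, ?_, ?_, le_rfl, ?_, ?_⟩
      · rw [hk]
        nlinarith
      · rw [hk]
        nlinarith
      · rw [hk]
        apply le_of_eq
        ring
      · filter_upwards [hb, h1] with z hz hz1 hz'
        refine ⟨?_, (hz (hsub hz')).2⟩
        have := hz1 hz'
        linarith

theorem osc_iter (G : Carnot N m) (C1 : ℝ) : ∃ κ : ℝ, 1 / 2 ≤ κ ∧ κ < 1 ∧ ∀ (y : Pt N) (ρ : ℝ), 0 < ρ →
    ∀ (v : Pt N → ℝ) (V : Pt N → Hv m), DG2 G (G.B y ρ) v V C1 → ∀ (M₀ : ℝ), 0 ≤ M₀ →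
    (∀ᵐ z, z ∈ G.B y ρ → |v z| ≤ M₀) → ∀ n : ℕ,
    ∃ c : ℝ, |c| ≤ M₀ ∧ ∀ᵐ z, z ∈ G.B y (ρ / 8 ^ n) → |v z - c| ≤ κ ^ n * M₀ := by
  obtain ⟨κ, hκ, hκ1, hstep⟩ := osc_step G C1
  refine ⟨κ, hκ, hκ1, ?_⟩
  intro y ρ hρ v V hv M₀ hM₀ hb n
  have hκ0 : 0 ≤ κ := by linarith
  have key : ∀ n : ℕ, ∃ m₁ M₁ : ℝ, -M₀ ≤ m₁ ∧ m₁ ≤ M₁ ∧ M₁ ≤ M₀ ∧
      M₁ - m₁ ≤ κ ^ n * (2 * M₀) ∧ ∀ᵐ z, z ∈ G.B y (ρ / 8 ^ n) → m₁ ≤ v z ∧ v z ≤ M₁ := by
    intro n
    induction n with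
    | zero =>
      refine ⟨-M₀, M₀, le_rfl, by linarith, le_rfl, by rw [pow_zero]; linarith, ?_⟩
      rw [pow_zero, div_one]
      filter_upwards [hb] with z hz hz'
      exact abs_le.1 (hz hz')
    | succ n ih =>
      obtain ⟨m₁, M₁, h1, h2, h3, h4, h5⟩ := ih
      have hρn : 0 < ρ / 8 ^ n := by positivity
      have hsub : G.B y (ρ / 8 ^ n) ⊆ G.B y ρ := by
        refine B_mono' ?_ y
        exact div_le_self hρ.le (one_le_pow₀ (by norm_num))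
      obtain ⟨m₂, M₂, g1, g2, g3, g4, g5⟩ := hstep y (ρ / 8 ^ n) hρn v V (hv.mono hsub) m₁ M₁ h2 h5
      refine ⟨m₂, M₂, h1.trans g1, g2, g3.trans h3, ?_, ?_⟩
      · calc M₂ - m₂ ≤ κ * (M₁ - m₁) := g4
          _ ≤ κ * (κ ^ n * (2 * M₀)) := mul_le_mul_of_nonneg_left h4 hκ0
          _ = κ ^ (n + 1) * (2 * M₀) := by ring
      · have e1 : ρ / 8 ^ (n + 1) = ρ / 8 ^ n / 8 := by
          rw [pow_succ]
          field_simp
        rw [e1]
        exact g5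
  obtain ⟨m₁, M₁, h1, h2, h3, h4, h5⟩ := key n
  refine ⟨(m₁ + M₁) / 2, abs_le.2 ⟨by linarith, by linarith⟩, ?_⟩
  filter_upwards [h5] with z hz hz'
  obtain ⟨h6, h7⟩ := hz hz'
  rw [abs_le]
  constructor
  · linarith
  · linarith

end Pool.Agent.CG
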