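import Pool.Agent.CG.B.Alg

/-!
# CG, PART C: the De Giorgi class (definition and first consequences)
-/

set_option autoImplicit false

namespace Pool.Agent.CG

open MeasureTheory Set Filter Topology
open scoped ContDiff ENNReal

variable {N m : ℕ}

/-- `v` (with gradient `V`) satisfies the Caccioppoli inequalities at all levels `≥ k0`. -/
structure DG (G : Carnot N m) (Ω : Set (Pt N)) (v : Pt N → ℝ) (V : Pt N → Hv m) (k0 C : ℝ) : Prop
    extends HW G 2 Ω v V where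
  cacc : ∀ k : ℝ, k0 ≤ k → ∀ η : Pt N → ℝ, Test Ω η →
    ∫ x, η x ^ 2 * (if k < v x then ‖V x‖ ^ 2 else 0) ≤
      C * ∫ x, (max (v x - k) 0) ^ 2 * ‖G.grad η x‖ ^ 2

theorem DG.mono {G : Carnot N m} {Ω Ω' : Set (Pt N)} {v : Pt N → ℝ} {V : Pt N → Hv m} {k0 k1 C C' : ℝ}
    (h : DG G Ω v V k0 C) (hs : Ω' ⊆ Ω) (hk : k0 ≤ k1) (hC : C ≤ C') : DG G Ω' v V k1 C' where
  toHW := h.toHW.mono hs
  cacc := by
    intro k hk' η hη
    refine (h.cacc k (hk.trans hk') η ⟨hη.smooth, hη.cpt, hη.sub.trans hs⟩).trans ?_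
    refine mul_le_mul_of_nonneg_right hC (integral_nonneg fun x => ?_)
    positivity

end Pool.Agent.CG
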