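import Pool.Agent.CG.B.Trans

/-!
# CG-C-FK (helper66): Faber-Krahn inequality

PLAN.
* `trans_univ2`: `HW.trans` with `q = 2` for all `R`, `R → ∞` (the balls `B 0 n` increase to `univ`, monotone convergence), converted
  to integrals: `∫ (f(x g) - f x)² ≤ l² ∫ ‖F‖²` for `ell g < l`.
* `faber_krahn`: for `g ∈ B 0 r` (`ell g < r`; `di 0 g = ell g`): `∫ (f(x g) - f x)² dx ≤ r² ∫ ‖F‖²`.  Expand:
  `∫ (f(x g) - f x)² = 2 ∫ f² - 2 ∫ f(x) f(x g) dx` (`G.mp_right g`).  Integrate over `g ∈ B 0 r`: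
  `2 |B_r| ∫ f² - 2 ∫∫_{g ∈ B_r} f(x) f(x g) ≤ r² |B_r| ∫ ‖F‖²`, and `∫∫ |f(x)| |f(x g)| dg dx ≤ (∫ |f|)²` (`G.mp_left x`) `≤ |{f ≠ 0}| ∫ f²`
  (Cauchy-Schwarz; `f ∈ L¹` since its support has finite measure) `≤ (1/2) |B_r| ∫ f²`.  So `|B_r| ∫ f² ≤ r² |B_r| ∫ ‖F‖²`.
  Fubini: `(x, g) ↦ f x * f (x g)` on `Pt N × B 0 r`: use `∫⁻` and Tonelli for `|f x| |f (x g)|` after replacing `f` by a strongly
  measurable representative (translations preserve null sets).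
* `faber_krahn'`: `r = (2 μ / |B_1|)^{1/Q}` (`G.vol_B`), for `μ > 0`; `Q ≥ 1` is assumed.
-/

set_option autoImplicit false

namespace Pool.Agent.CG

open MeasureTheory Set Filter Topology
open scoped ContDiff ENNReal

variable {N m : ℕ}

private theorem fk_pow2 {E : Type*} [NormedAddCommGroup E] (h : Pt N → E) (μ : Measure (Pt N)) :
    eLpNorm h 2 μ ^ 2 = ∫⁻ x, ‖h x‖ₑ ^ 2 ∂μ := by
  have h1 := eLpNorm_nnreal_pow_eq_lintegral (f := h) (μ := μ) (p := 2) two_ne_zero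
  rw [ENNReal.coe_ofNat, NNReal.coe_ofNat, ENNReal.rpow_two] at h1
  rw [h1]
  exact lintegral_congr fun x => ENNReal.rpow_two _

private theorem fk_int {E : Type*} [NormedAddCommGroup E] {h : Pt N → E}
    (hm : AEStronglyMeasurable h volume) :
    ∫ x, ‖h x‖ ^ 2 = (∫⁻ x, ‖h x‖ₑ ^ 2).toReal := by
  rw [integral_eq_lintegral_of_nonneg_ae (f := fun x => ‖h x‖ ^ 2)
    (Eventually.of_forall fun x => by positivity) (hm.norm.pow 2)]
  congr 1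
  refine lintegral_congr fun x => ?_
  rw [ENNReal.ofReal_pow (norm_nonneg _), ofReal_norm]

private theorem fk_int' {h : Pt N → ℝ} (hm : AEStronglyMeasurable h volume) :
    ∫ x, h x ^ 2 = (∫⁻ x, ‖h x‖ₑ ^ 2).toReal := by
  rw [← fk_int hm]
  refine integral_congr_ae (Eventually.of_forall fun x => ?_)
  simp

private theorem fk_fin {E : Type*} [NormedAddCommGroup E] {h : Pt N → E} (hm : MemLp h 2 volume) :
    ∫⁻ x, ‖h x‖ₑ ^ 2 ≠ ⊤ := by
  rw [← fk_pow2]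
  exact ENNReal.pow_ne_top hm.2.ne

private theorem fk_trans {G : Carnot N m} {f : Pt N → ℝ} {F : Pt N → Hv m} (hf : HW G 2 univ f F)
    {g : Pt N} {l : ℝ} (hg : G.ell g < l) :
    ∫⁻ x, ‖f (G.mul x g) - f x‖ₑ ^ 2 ≤ ENNReal.ofReal (l ^ 2) * ∫⁻ x, ‖F x‖ₑ ^ 2 := by
  have hl : 0 ≤ l := (G.ell_nonneg g).trans hg.le
  have h1 : ∀ n : ℕ, ∫⁻ y in G.B 0 (n : ℝ), ‖f (G.mul y g) - f y‖ₑ ^ 2 ≤
      ENNReal.ofReal (l ^ 2) * ∫⁻ x, ‖F x‖ₑ ^ 2 := by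
    intro n
    have h2 := hf.trans one_le_two ENNReal.ofNat_ne_top 0 g (R := (n : ℝ)) hg
    have h3 : eLpNorm F 2 (volume.restrict (G.B 0 ((n : ℝ) + l))) ≤ eLpNorm F 2 volume :=
      eLpNorm_mono_measure _ Measure.restrict_le_self
    have h4 := h2.trans (mul_le_mul_right h3 (ENNReal.ofReal l))
    have h5 := pow_le_pow_left' h4 2
    rw [mul_pow, fk_pow2, fk_pow2, ← ENNReal.ofReal_pow hl] at h5
    exact h5
  have hU : (⋃ n : ℕ, G.B 0 (n : ℝ)) = univ := by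
    refine eq_univ_of_forall fun y => ?_
    obtain ⟨n, hn⟩ := exists_nat_gt (G.di 0 y)
    exact mem_iUnion.2 ⟨n, hn⟩
  have hD : Directed (fun x1 x2 => x1 ⊆ x2) (fun n : ℕ => G.B 0 (n : ℝ)) := by
    refine Monotone.directed_le (f := fun n : ℕ => G.B 0 (n : ℝ)) ?_
    intro a b hab y hy
    exact lt_of_lt_of_le (G.mem_B.1 hy) (by exact_mod_cast hab)
  have h5 := setLIntegral_iUnion_of_directed (μ := (volume : Measure (Pt N)))
    (fun y => ‖f (G.mul y g) - f y‖ₑ ^ 2) hD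
  rw [hU, Measure.restrict_univ] at h5
  rw [h5]
  exact iSup_le h1

theorem trans_univ2 {G : Carnot N m} {f : Pt N → ℝ} {F : Pt N → Hv m} (hf : HW G 2 univ f F)
    (h1 : MemLp f 2 volume) (h2 : MemLp F 2 volume) {g : Pt N} {l : ℝ} (hg : G.ell g < l) :
    ∫ x, (f (G.mul x g) - f x) ^ 2 ≤ l ^ 2 * ∫ x, ‖F x‖ ^ 2 := by
  have hm : AEStronglyMeasurable (fun x => f (G.mul x g) - f x) volume :=
    (h1.1.comp_measurePreserving (G.mp_right g)).sub h1.1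
  rw [fk_int' hm, fk_int h2.1, ← ENNReal.toReal_ofReal (sq_nonneg l), ← ENNReal.toReal_mul]
  exact ENNReal.toReal_mono (ENNReal.mul_ne_top ENNReal.ofReal_ne_top (fk_fin h2)) (fk_trans hf hg)

private theorem fk_pt (a b : ℝ) : ‖a‖ₑ ^ 2 + ‖b‖ₑ ^ 2 ≤ ‖a - b‖ₑ ^ 2 + 2 * (‖b‖ₑ * ‖a‖ₑ) := by
  have h2 : (2 : ℝ≥0∞) = ENNReal.ofReal 2 := by simp
  rw [Real.enorm_eq_ofReal_abs, Real.enorm_eq_ofReal_abs, Real.enorm_eq_ofReal_abs, h2,
    ← ENNReal.ofReal_mul (abs_nonneg _), ← ENNReal.ofReal_mul (by norm_num),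
    ← ENNReal.ofReal_pow (abs_nonneg _), ← ENNReal.ofReal_pow (abs_nonneg _),
    ← ENNReal.ofReal_pow (abs_nonneg _), ← ENNReal.ofReal_add (by positivity) (by positivity),
    ← ENNReal.ofReal_add (by positivity) (by positivity)]
  refine ENNReal.ofReal_le_ofReal ?_
  rw [sq_abs, sq_abs, sq_abs]
  have h3 : b * a ≤ |b| * |a| := by
    rw [← abs_mul]
    exact le_abs_self _
  nlinarith

/-- Cauchy-Schwarz for functions with support of finite measure -/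
private theorem fk_cs {f : Pt N → ℝ} (hf : Measurable f) :
    (∫⁻ x, ‖f x‖ₑ) ^ 2 ≤ (∫⁻ x, ‖f x‖ₑ ^ 2) * volume {x | f x ≠ 0} := by
  have hS : MeasurableSet {x | f x ≠ 0} := hf (measurableSet_singleton 0).compl
  have h1 := ENNReal.lintegral_mul_le_Lp_mul_Lq (volume : Measure (Pt N)) Real.HolderConjugate.two_two
    (f := fun x => ‖f x‖ₑ) (g := {x | f x ≠ 0}.indicator fun _ => 1) hf.enorm.aemeasurable
    (measurable_const.indicator hS).aemeasurable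
  have h2 : (∫⁻ x, ((fun x : Pt N => ‖f x‖ₑ) * {x | f x ≠ 0}.indicator fun _ => (1 : ℝ≥0∞)) x) =
      ∫⁻ x, ‖f x‖ₑ := by
    refine lintegral_congr fun x => ?_
    rw [Pi.mul_apply]
    by_cases hx : f x = 0
    · simp [hx]
    · rw [indicator_of_mem (by exact hx), mul_one]
  have h3 : (∫⁻ x, ({x | f x ≠ 0}.indicator (fun _ => (1 : ℝ≥0∞)) x) ^ (2 : ℝ)) =
      volume {x | f x ≠ 0} := by
    rw [← lintegral_indicator_one hS]
    refine lintegral_congr fun x => ?_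
    by_cases hx : x ∈ {x | f x ≠ 0}
    · rw [indicator_of_mem hx, indicator_of_mem hx, ENNReal.one_rpow, Pi.one_apply]
    · rw [indicator_of_notMem hx, indicator_of_notMem hx, ENNReal.zero_rpow_of_pos (by norm_num)]
  have h4 : (∫⁻ x, ‖f x‖ₑ ^ (2 : ℝ)) = ∫⁻ x, ‖f x‖ₑ ^ 2 :=
    lintegral_congr fun x => ENNReal.rpow_two _
  rw [h2, h3, h4] at h1
  have h5 := pow_le_pow_left' h1 2
  rw [mul_pow, ← ENNReal.rpow_two, ← ENNReal.rpow_two, ← ENNReal.rpow_two, ← ENNReal.rpow_mul,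
    ← ENNReal.rpow_mul] at h5
  norm_num at h5
  exact h5

private theorem fk_meas {G : Carnot N m} {f : Pt N → ℝ} {F : Pt N → Hv m} (hf : HW G 2 univ f F)
    (hm : Measurable f) (h1 : MemLp f 2 volume) {r : ℝ} (hr : 0 < r)
    (hs : 2 * volume {x | f x ≠ 0} ≤ volume (G.B 0 r)) :
    ∫⁻ x, ‖f x‖ₑ ^ 2 ≤ ENNReal.ofReal (r ^ 2) * ∫⁻ x, ‖F x‖ₑ ^ 2 := by
  have hA := fk_fin h1
  have hV0 := (G.vol_B_pos 0 hr).ne'
  have hV := (G.vol_B_lt_top 0 r).ne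
  have hB : MeasurableSet (G.B 0 r) := (G.isOpen_B 0 r).measurableSet
  have hfm : Measurable fun q : Pt N × Pt N => ‖f q.1‖ₑ * ‖f (G.mul q.1 q.2)‖ₑ :=
    (hm.comp measurable_fst).enorm.mul (hm.comp G.continuous_mul.measurable).enorm
  set A := ∫⁻ x, ‖f x‖ₑ ^ 2 with hAd
  set D := ∫⁻ x, ‖F x‖ₑ ^ 2 with hDd
  -- one translation
  have step1 : ∀ g ∈ G.B 0 r, 2 * A ≤ ENNReal.ofReal (r ^ 2) * D +
      2 * ∫⁻ x, ‖f x‖ₑ * ‖f (G.mul x g)‖ₑ := by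
    intro g hg
    have hg' : G.ell g < r := by
      have h2 : G.ell (G.mul (-0) g) < r := hg
      rwa [neg_zero, G.zero_mul] at h2
    have h3 := fk_trans hf hg'
    have h4 : ∫⁻ x, ‖f (G.mul x g)‖ₑ ^ 2 = A :=
      (G.mp_right g).lintegral_comp (f := fun x => ‖f x‖ₑ ^ 2) (hm.enorm.pow_const 2)
    have hmg : Measurable fun x => f (G.mul x g) := hm.comp (G.continuous_right g).measurable
    have h5 : 2 * A = ∫⁻ x, (‖f (G.mul x g)‖ₑ ^ 2 + ‖f x‖ₑ ^ 2) := by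
      rw [lintegral_add_left (hmg.enorm.pow_const 2), h4, two_mul]
    have h6 : ∫⁻ x, (‖f (G.mul x g)‖ₑ ^ 2 + ‖f x‖ₑ ^ 2) ≤
        ∫⁻ x, (‖f (G.mul x g) - f x‖ₑ ^ 2 + 2 * (‖f x‖ₑ * ‖f (G.mul x g)‖ₑ)) :=
      lintegral_mono fun x => fk_pt _ _
    have hsub : Measurable fun x => f (G.mul x g) - f x := hmg.sub hm
    have hpr : Measurable fun x => ‖f x‖ₑ * ‖f (G.mul x g)‖ₑ := hm.enorm.mul hmg.enorm
    rw [lintegral_add_left (hsub.enorm.pow_const 2), lintegral_const_mul _ hpr] at h6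
    rw [h5]
    exact h6.trans (add_le_add h3 le_rfl)
  -- the double integral
  have step2 : ∫⁻ g in G.B 0 r, ∫⁻ x, ‖f x‖ₑ * ‖f (G.mul x g)‖ₑ ≤ (∫⁻ x, ‖f x‖ₑ) ^ 2 := by
    rw [lintegral_lintegral_swap (f := fun g x => ‖f x‖ₑ * ‖f (G.mul x g)‖ₑ)
      (hfm.comp measurable_swap).aemeasurable]
    have h2 : ∀ x, ∫⁻ g in G.B 0 r, ‖f x‖ₑ * ‖f (G.mul x g)‖ₑ ≤ ‖f x‖ₑ * ∫⁻ x, ‖f x‖ₑ := by
      intro x
      have hmg : Measurable fun g => ‖f (G.mul x g)‖ₑ :=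
        (hm.comp (G.continuous_left x).measurable).enorm
      rw [lintegral_const_mul _ hmg]
      refine mul_le_mul' le_rfl ((setLIntegral_le_lintegral _ _).trans (le_of_eq ?_))
      exact (G.mp_left x).lintegral_comp (f := fun x => ‖f x‖ₑ) hm.enorm
    refine (lintegral_mono h2).trans (le_of_eq ?_)
    rw [lintegral_mul_const _ hm.enorm, sq]
  have hmI : Measurable fun g => ∫⁻ x, ‖f x‖ₑ * ‖f (G.mul x g)‖ₑ :=
    Measurable.lintegral_prod_right' (f := fun q : Pt N × Pt N => ‖f q.2‖ₑ * ‖f (G.mul q.2 q.1)‖ₑ)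
      (hfm.comp measurable_swap)
  have step3 : 2 * A * volume (G.B 0 r) ≤ ENNReal.ofReal (r ^ 2) * D * volume (G.B 0 r) +
      2 * ((∫⁻ x, ‖f x‖ₑ) ^ 2) := by
    calc 2 * A * volume (G.B 0 r) = ∫⁻ _ in G.B 0 r, 2 * A := (setLIntegral_const _ _).symm
      _ ≤ ∫⁻ g in G.B 0 r, (ENNReal.ofReal (r ^ 2) * D + 2 * ∫⁻ x, ‖f x‖ₑ * ‖f (G.mul x g)‖ₑ) :=
        setLIntegral_mono' hB step1
      _ = ENNReal.ofReal (r ^ 2) * D * volume (G.B 0 r) +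
          2 * ∫⁻ g in G.B 0 r, ∫⁻ x, ‖f x‖ₑ * ‖f (G.mul x g)‖ₑ := by
        rw [lintegral_add_left measurable_const, setLIntegral_const, lintegral_const_mul _ hmI]
      _ ≤ _ := add_le_add le_rfl (mul_le_mul' le_rfl step2)
  have step4 : 2 * ((∫⁻ x, ‖f x‖ₑ) ^ 2) ≤ A * volume (G.B 0 r) := by
    calc 2 * ((∫⁻ x, ‖f x‖ₑ) ^ 2) ≤ 2 * (A * volume {x | f x ≠ 0}) :=
          mul_le_mul' le_rfl (fk_cs hm)
      _ = A * (2 * volume {x | f x ≠ 0}) := by ring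
      _ ≤ _ := mul_le_mul' le_rfl hs
  have step5 : A * volume (G.B 0 r) + A * volume (G.B 0 r) ≤
      ENNReal.ofReal (r ^ 2) * D * volume (G.B 0 r) + A * volume (G.B 0 r) := by
    have h2 := step3.trans (add_le_add le_rfl step4)
    rwa [mul_assoc, two_mul] at h2
  have step6 := (ENNReal.add_le_add_iff_right (ENNReal.mul_ne_top hA hV)).1 step5
  exact (ENNReal.mul_le_mul_iff_left hV0 hV).1 step6

private theorem fk_lint {G : Carnot N m} {f : Pt N → ℝ} {F : Pt N → Hv m} (hf : HW G 2 univ f F)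
    (h1 : MemLp f 2 volume) {r : ℝ} (hr : 0 < r)
    (hs : 2 * volume {x | f x ≠ 0} ≤ volume (G.B 0 r)) :
    ∫⁻ x, ‖f x‖ₑ ^ 2 ≤ ENNReal.ofReal (r ^ 2) * ∫⁻ x, ‖F x‖ₑ ^ 2 := by
  have he : f =ᵐ[volume] h1.1.mk f := h1.1.ae_eq_mk
  have hm : Measurable (h1.1.mk f) := h1.1.stronglyMeasurable_mk.measurable
  have hf' : HW G 2 univ (h1.1.mk f) F :=
    hf.congr isOpen_univ (he.mono fun x hx _ => hx) (Eventually.of_forall fun x _ => rfl)
  have hs' : volume {x | h1.1.mk f x ≠ 0} = volume {x | f x ≠ 0} := by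
    refine measure_congr ?_
    filter_upwards [he] with x hx
    have : (h1.1.mk f x ≠ 0) = (f x ≠ 0) := by rw [hx]
    exact this
  have h2 := fk_meas hf' hm ((memLp_congr_ae he).1 h1) hr (by rw [hs']; exact hs)
  have h3 : ∫⁻ x, ‖f x‖ₑ ^ 2 = ∫⁻ x, ‖h1.1.mk f x‖ₑ ^ 2 := by
    refine lintegral_congr_ae ?_
    filter_upwards [he] with x hx
    rw [hx]
  rw [h3]
  exact h2

theorem faber_krahn {G : Carnot N m} {f : Pt N → ℝ} {F : Pt N → Hv m} (hf : HW G 2 univ f F)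
    (h1 : MemLp f 2 volume) (h2 : MemLp F 2 volume) {r : ℝ} (hr : 0 < r)
    (hs : 2 * volume {x | f x ≠ 0} ≤ volume (G.B 0 r)) :
    ∫ x, f x ^ 2 ≤ r ^ 2 * ∫ x, ‖F x‖ ^ 2 := by
  rw [fk_int' h1.1, fk_int h2.1, ← ENNReal.toReal_ofReal (sq_nonneg r), ← ENNReal.toReal_mul]
  exact ENNReal.toReal_mono (ENNReal.mul_ne_top ENNReal.ofReal_ne_top (fk_fin h2))
    (fk_lint hf h1 hr hs)

theorem faber_krahn' (G : Carnot N m) (hQ : 1 ≤ G.Q) : ∃ C : ℝ, 0 < C ∧ ∀ (f : Pt N → ℝ) (F : Pt N → Hv m),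
    HW G 2 univ f F → MemLp f 2 volume → MemLp F 2 volume → volume {x | f x ≠ 0} ≠ ⊤ →
    ∫ x, f x ^ 2 ≤ C * (volume.real {x | f x ≠ 0}) ^ (2 / (G.Q : ℝ)) * ∫ x, ‖F x‖ ^ 2 := by
  have hQ' : (0 : ℝ) < (G.Q : ℝ) := by exact_mod_cast hQ
  have hV : 0 < volume.real (G.B 0 1) :=
    ENNReal.toReal_pos (G.vol_B_pos 0 one_pos).ne' (G.vol_B_lt_top 0 1).ne
  refine ⟨(2 / volume.real (G.B 0 1)) ^ (2 / (G.Q : ℝ)), by positivity, ?_⟩
  intro f F hf h1 h2 hfin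
  by_cases h0 : volume {x | f x ≠ 0} = 0
  · have h3 : ∫ x, f x ^ 2 = 0 := by
      refine integral_eq_zero_of_ae ?_
      have h4 : ∀ᵐ x ∂(volume : Measure (Pt N)), f x = 0 := ae_iff.2 h0
      filter_upwards [h4] with x hx
      rw [hx]
      simp
    rw [h3]
    positivity
  · have hμ : 0 < volume.real {x | f x ≠ 0} := ENNReal.toReal_pos h0 hfin
    set μ := volume.real {x | f x ≠ 0} with hμd
    set V := volume.real (G.B 0 1) with hVd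
    have hb : 0 < 2 * μ / V := by positivity
    have hr : 0 < (2 * μ / V) ^ (1 / (G.Q : ℝ)) := by positivity
    have hrQ : ((2 * μ / V) ^ (1 / (G.Q : ℝ))) ^ G.Q = 2 * μ / V := by
      rw [← Real.rpow_natCast, ← Real.rpow_mul hb.le, one_div, inv_mul_cancel₀ hQ'.ne', Real.rpow_one]
    have hr2 : ((2 * μ / V) ^ (1 / (G.Q : ℝ))) ^ 2 = (2 / V) ^ (2 / (G.Q : ℝ)) * μ ^ (2 / (G.Q : ℝ)) := by
      rw [← Real.rpow_natCast, ← Real.rpow_mul hb.le, ← Real.mul_rpow (by positivity) hμ.le]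
      congr 1
      · ring
      · push_cast
        ring
    have hs : 2 * volume {x | f x ≠ 0} ≤ volume (G.B 0 ((2 * μ / V) ^ (1 / (G.Q : ℝ)))) := by
      rw [G.vol_B 0 hr, hrQ]
      have e1 : volume {x | f x ≠ 0} = ENNReal.ofReal μ := (ENNReal.ofReal_toReal hfin).symm
      have e2 : volume (G.B 0 1) = ENNReal.ofReal V :=
        (ENNReal.ofReal_toReal (G.vol_B_lt_top 0 1).ne).symm
      have e3 : (2 : ℝ≥0∞) = ENNReal.ofReal 2 := by simp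
      rw [e1, e2, e3, ← ENNReal.ofReal_mul (by norm_num), ← ENNReal.ofReal_mul hb.le]
      refine ENNReal.ofReal_le_ofReal (le_of_eq ?_)
      field_simp
    have h3 := faber_krahn hf h1 h2 hr hs
    rw [hr2] at h3
    exact h3

end Pool.Agent.CG
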