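import Pool.Agent.CG.C.Decay
import Pool.Agent.CG.B.McS

/-!
# CG-C-Hol (helper66): (DG3) Hölder continuity

PLAN.
* `dense_pts`: a countable dense set `D` of `Pt N` (`TopologicalSpace.exists_countable_dense`).
* `hol_ae`: `I = R^{-Q} ∫_{B x R} v²`.  For `w ∈ B x (R/2)` the ball `B w (R/2)` is in `B x R` and `bdd_local` on it gives `|v| ≤ M₀ = √(C I)` a.e. on
  `B w (R/4)`.  `osc_iter` with `y = w`, `ρ = R/4`: `|v - c_{w,n}| ≤ κ^n M₀` a.e. on `B w (8^{-n} R/4)`.  `E` = set of points of no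
  exceptional null set, `w ∈ D ∩ B x (R/2)`, `n ∈ ℕ` (countable union of null sets).  For `y, z ∈ E ∩ B x (R/2)`, `d = di y z`:
  if `d ≥ R/8` use `n = 0` for each of `y` and `z` (`w ∈ D` close to `y`): `|v y - v z| ≤ 4 M₀`... ; if `0 < d < R/8` take `n` with
  `8^{-n-1} R/8 ≤ d < 8^{-n} R/8` and `w ∈ D ∩ B x (R/2) ∩ B y (8^{-n} R/8)` (open, nonempty): `y, z ∈ B w (8^{-n} R/4)`, so
  `|v y - v z| ≤ 2 κ^n M₀`; `α = log(1/κ)/log 8 ∈ (0, 1/3]` and `κ^n = 8^{-nα} ≤ 64^α (d/R)^α`.  If `d = 0` then `y = z` (`G.ell_pos`).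
* `dg_holder`: `mcshane` on `S = E ∩ B x (R/2)` (`M = C' M₀ R^{-α}`), `continuous_of_holder`, the bound `v'² ≤ M₀²` a.e. gives it everywhere on
  `B x (R/2)` by continuity (`le_of_ae_le`).
-/

set_option autoImplicit false

namespace Pool.Agent.CG

open MeasureTheory Set Filter Topology
open scoped ContDiff ENNReal

variable {N m : ℕ}

theorem hol_ae (G : Carnot N m) (C1 : ℝ) : ∃ α : ℝ, 0 < α ∧ α < 1 ∧ ∃ C : ℝ, 0 < C ∧
    ∀ (x : Pt N) (R : ℝ), 0 < R → ∀ (v : Pt N → ℝ) (V : Pt N → Hv m), DG2 G (G.B x R) v V C1 →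
    IntegrableOn (fun y => v y ^ 2) (G.B x R) →
    ∃ E : Set (Pt N), (∀ᵐ y, y ∈ G.B x (R / 2) → y ∈ E) ∧
      ∀ y ∈ E, ∀ z ∈ E, y ∈ G.B x (R / 2) → z ∈ G.B x (R / 2) →
        v y ^ 2 ≤ C * (R⁻¹ ^ G.Q * ∫ z in G.B x R, v z ^ 2) ∧
        |v y - v z| ≤ (G.di y z / R) ^ α * Real.sqrt (C * (R⁻¹ ^ G.Q * ∫ z in G.B x R, v z ^ 2)) := by
  obtain ⟨Cb, hCb, hbdd⟩ := bdd_local G C1
  obtain ⟨κ, hκ1, hκ2, hosc⟩ := osc_iter G C1
  have hκ0 : 0 < κ := by linarith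
  have hlog8 : 0 < Real.log 8 := Real.log_pos (by norm_num)
  set α : ℝ := Real.log κ⁻¹ / Real.log 8 with hα
  have hα0 : 0 < α := div_pos (Real.log_pos ((one_lt_inv₀ hκ0).2 hκ2)) hlog8
  have hα1 : α < 1 := by
    rw [hα, div_lt_one hlog8]
    refine Real.log_lt_log (inv_pos.2 hκ0) ?_
    have h1 : κ⁻¹ ≤ 2 := by
      rw [inv_le_comm₀ hκ0 two_pos]
      linarith
    linarith
  have hκα : (8 : ℝ) ^ (-α) = κ := by
    rw [Real.rpow_neg (by norm_num), Real.rpow_def_of_pos (by norm_num), hα,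
      mul_div_cancel₀ _ hlog8.ne', Real.exp_log (inv_pos.2 hκ0), inv_inv]
  have h8α : (8 : ℝ) ^ α ≤ 8 := by
    have h1 : (8 : ℝ) ^ α ≤ 8 ^ (1 : ℝ) := Real.rpow_le_rpow_of_exponent_le (by norm_num) hα1.le
    rwa [Real.rpow_one] at h1
  have h8α0 : (1 : ℝ) ≤ 8 ^ α := Real.one_le_rpow (by norm_num) hα0.le
  refine ⟨α, hα0, hα1, 16384 * (Cb * 2 ^ G.Q), by positivity, ?_⟩
  intro x R hR v V hDG hint
  set I : ℝ := R⁻¹ ^ G.Q * ∫ z in G.B x R, v z ^ 2 with hIdef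
  have hI : 0 ≤ I := mul_nonneg (by positivity) (integral_nonneg fun z => sq_nonneg _)
  set M₀ : ℝ := Real.sqrt (Cb * 2 ^ G.Q * I) with hM
  have hM0 : 0 ≤ M₀ := Real.sqrt_nonneg _
  have hM2 : M₀ ^ 2 = Cb * 2 ^ G.Q * I := Real.sq_sqrt (by positivity)
  have hsqrt : Real.sqrt (16384 * (Cb * 2 ^ G.Q) * I) = 128 * M₀ := by
    rw [show 16384 * (Cb * 2 ^ G.Q) * I = (128 * M₀) ^ 2 by rw [mul_pow, hM2]; ring]
    exact Real.sqrt_sq (by positivity)
  have hsub : ∀ w ∈ G.B x (R / 2), G.B w (R / 2) ⊆ G.B x R := by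
    intro w hw y hy
    have h1 : G.di x w < R / 2 := hw
    have h2 : G.di w y < R / 2 := hy
    have h3 := G.di_triangle x w y
    change G.di x y < R
    linarith
  have hsub4 : ∀ w, G.B w (R / 4) ⊆ G.B w (R / 2) := by
    intro w y hy
    have h2 : G.di w y < R / 4 := hy
    change G.di w y < R / 2
    linarith
  have hloc : ∀ w ∈ G.B x (R / 2), ∀ᵐ y, y ∈ G.B w (R / 4) → |v y| ≤ M₀ := by
    intro w hw
    have h1 := hbdd w (R / 2) (by positivity) v V (hDG.mono (hsub w hw))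
      (hint.mono_set (hsub w hw))
    filter_upwards [h1] with y hy hyB
    have hyB' : y ∈ G.B w (R / 2 / 2) := by rwa [show R / 2 / 2 = R / 4 by ring]
    have h2 := hy hyB'
    have h3 : Cb * ((R / 2)⁻¹ ^ G.Q * ∫ z in G.B w (R / 2), v z ^ 2) ≤ M₀ ^ 2 := by
      rw [hM2]
      have h4 : ∫ z in G.B w (R / 2), v z ^ 2 ≤ ∫ z in G.B x R, v z ^ 2 :=
        setIntegral_mono_set hint (Eventually.of_forall fun z => sq_nonneg _)
          (hsub w hw).eventuallyLE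
      have h5 : (R / 2)⁻¹ ^ G.Q = 2 ^ G.Q * R⁻¹ ^ G.Q := by
        rw [inv_div, div_eq_mul_inv, mul_pow]
      rw [h5]
      calc Cb * (2 ^ G.Q * R⁻¹ ^ G.Q * ∫ z in G.B w (R / 2), v z ^ 2)
          ≤ Cb * (2 ^ G.Q * R⁻¹ ^ G.Q * ∫ z in G.B x R, v z ^ 2) := by gcongr
        _ = Cb * 2 ^ G.Q * I := by rw [hIdef]; ring
    exact abs_le_of_sq_le_sq (h2.trans h3) hM0
  have hloc2 : ∀ w ∈ G.B x (R / 2), ∀ n : ℕ, ∃ c : ℝ, |c| ≤ M₀ ∧
      ∀ᵐ z, z ∈ G.B w (R / 4 / 8 ^ n) → |v z - c| ≤ κ ^ n * M₀ := fun w hw n =>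
    hosc w (R / 4) (by positivity) v V (hDG.mono ((hsub4 w).trans (hsub w hw))) M₀ hM0
      (hloc w hw) n
  choose! c hc1 hc2 using hloc2
  obtain ⟨D, hDc, hDd⟩ := TopologicalSpace.exists_countable_dense (Pt N)
  have hE0 : ∀ᵐ y, ∀ w ∈ D, w ∈ G.B x (R / 2) → (y ∈ G.B w (R / 4) → |v y| ≤ M₀) ∧
      ∀ n : ℕ, y ∈ G.B w (R / 4 / 8 ^ n) → |v y - c w n| ≤ κ ^ n * M₀ := by
    rw [ae_ball_iff hDc]
    intro w _
    by_cases hw : w ∈ G.B x (R / 2)
    · have h1 : ∀ᵐ y, ∀ n : ℕ, y ∈ G.B w (R / 4 / 8 ^ n) → |v y - c w n| ≤ κ ^ n * M₀ :=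
        ae_all_iff.2 fun n => hc2 w hw n
      filter_upwards [hloc w hw, h1] with y hy1 hy2 _
      exact ⟨hy1, hy2⟩
    · exact Eventually.of_forall fun y h => absurd h hw
  refine ⟨{y | ∀ w ∈ D, w ∈ G.B x (R / 2) → (y ∈ G.B w (R / 4) → |v y| ≤ M₀) ∧
      ∀ n : ℕ, y ∈ G.B w (R / 4 / 8 ^ n) → |v y - c w n| ≤ κ ^ n * M₀}, ?_, ?_⟩
  · filter_upwards [hE0] with y hy _
    exact hy
  intro y hyE z hzE hy hz
  have hsup : ∀ y, (∀ w ∈ D, w ∈ G.B x (R / 2) → (y ∈ G.B w (R / 4) → |v y| ≤ M₀) ∧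
      ∀ n : ℕ, y ∈ G.B w (R / 4 / 8 ^ n) → |v y - c w n| ≤ κ ^ n * M₀) →
      y ∈ G.B x (R / 2) → |v y| ≤ M₀ := by
    intro y hyE hy
    obtain ⟨w, hwD, hw1, hw2⟩ := hDd.exists_mem_open
      ((G.isOpen_B x (R / 2)).inter (G.isOpen_B y (R / 4))) ⟨y, hy, by
        change G.di y y < R / 4
        rw [G.di_self]
        positivity⟩
    refine (hyE w hwD hw1).1 ?_
    change G.di w y < R / 4
    rw [G.di_comm]
    exact hw2
  have hby := hsup y hyE hy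
  have hbz := hsup z hzE hz
  refine ⟨?_, ?_⟩
  · have h1 : v y ^ 2 ≤ M₀ ^ 2 := by
      rw [← sq_abs (v y)]
      exact pow_le_pow_left₀ (abs_nonneg _) hby 2
    rw [hM2] at h1
    have h2 : 0 ≤ Cb * 2 ^ G.Q * I := by positivity
    linarith
  rw [hsqrt]
  have hd0 := G.di_nonneg y z
  have hdR : 0 ≤ (G.di y z / R) ^ α := Real.rpow_nonneg (by positivity) _
  -- the exponent
  have hsmall : ∀ t : ℝ, 0 < t → t ≤ 1 → G.di y z = t * (R / 8) →
      |v y - v z| ≤ (G.di y z / R) ^ α * (128 * M₀) := by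
    intro t ht0 ht1 hdt
    obtain ⟨n, hn1, hn2⟩ := exists_nat_pow_near_of_lt_one ht0 ht1 (y := (8 : ℝ)⁻¹)
      (by norm_num) (by norm_num)
    have hp : (0 : ℝ) < (8 : ℝ)⁻¹ ^ n := by positivity
    set r : ℝ := (8 : ℝ)⁻¹ ^ n * (R / 8) with hr
    have hr0 : 0 < r := by positivity
    have hdr : G.di y z ≤ r := by
      rw [hdt, hr]
      exact mul_le_mul_of_nonneg_right hn2 (by positivity)
    have h2r : R / 4 / 8 ^ n = 2 * r := by
      rw [hr, inv_pow]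
      field_simp
      norm_num
    obtain ⟨w, hwD, hw1, hw2⟩ := hDd.exists_mem_open
      ((G.isOpen_B x (R / 2)).inter (G.isOpen_B y r)) ⟨y, hy, by
        change G.di y y < r
        rw [G.di_self]
        exact hr0⟩
    have hw2' : G.di y w < r := hw2
    have h1 : |v y - c w n| ≤ κ ^ n * M₀ := by
      refine (hyE w hwD hw1).2 n ?_
      rw [h2r]
      change G.di w y < 2 * r
      rw [G.di_comm]
      linarith
    have h2 : |v z - c w n| ≤ κ ^ n * M₀ := by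
      refine (hzE w hwD hw1).2 n ?_
      rw [h2r]
      change G.di w z < 2 * r
      have h3 := G.di_triangle w y z
      rw [G.di_comm w y] at h3
      linarith
    have h3 : |v y - v z| ≤ 2 * (κ ^ n * M₀) := by
      have h4 := abs_sub_le (v y) (c w n) (v z)
      rw [abs_sub_comm (c w n) (v z)] at h4
      linarith
    have h5 : κ ^ n ≤ 64 * (G.di y z / R) ^ α := by
      have e1 : κ ^ n = (8 : ℝ) ^ α * ((8 : ℝ)⁻¹ ^ (n + 1)) ^ α := by
        rw [← hκα, Real.rpow_neg (by norm_num), inv_pow, inv_pow, Real.inv_rpow (by positivity),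
          ← Real.rpow_natCast, ← Real.rpow_mul (by norm_num), ← Real.rpow_natCast,
          ← Real.rpow_mul (by norm_num)]
        have e2 : ((n + 1 : ℕ) : ℝ) * α = α + α * n := by push_cast; ring
        rw [e2, Real.rpow_add (by norm_num), mul_inv, ← mul_assoc,
          mul_inv_cancel₀ (by positivity), one_mul]
      have e3 : ((8 : ℝ)⁻¹ ^ (n + 1)) ^ α ≤ t ^ α :=
        Real.rpow_le_rpow (by positivity) hn1.le hα0.le
      have e4 : t = 8 * (G.di y z / R) := by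
        rw [hdt]
        field_simp
      have e5 : t ^ α = (8 : ℝ) ^ α * (G.di y z / R) ^ α := by
        rw [e4, Real.mul_rpow (by norm_num) (by positivity)]
      rw [e1]
      calc (8 : ℝ) ^ α * ((8 : ℝ)⁻¹ ^ (n + 1)) ^ α ≤ (8 : ℝ) ^ α * t ^ α := by gcongr
        _ = ((8 : ℝ) ^ α * (8 : ℝ) ^ α) * (G.di y z / R) ^ α := by rw [e5]; ring
        _ ≤ (8 * 8) * (G.di y z / R) ^ α := by gcongr
        _ = 64 * (G.di y z / R) ^ α := by norm_num
    calc |v y - v z| ≤ 2 * (κ ^ n * M₀) := h3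
      _ ≤ 2 * ((64 * (G.di y z / R) ^ α) * M₀) := by gcongr
      _ = (G.di y z / R) ^ α * (128 * M₀) := by ring
  rcases hd0.eq_or_lt with h0 | h0
  · have hyz : y = z := by
      by_contra hne
      have h1 : G.mul (-y) z ≠ 0 := by
        intro h2
        apply hne
        apply G.mul_left_cancel (x := -y)
        rw [h2, G.neg_mul]
      exact (G.ell_pos h1).ne' h0.symm
    rw [hyz, sub_self, abs_zero, G.di_self]
    rw [hyz, G.di_self] at hdR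
    positivity
  · by_cases hlt : G.di y z ≤ R / 8
    · refine hsmall (G.di y z / (R / 8)) (by positivity) ?_ ?_
      · rw [div_le_one (by positivity)]
        exact hlt
      · rw [div_mul_cancel₀ _ (by positivity)]
    · push Not at hlt
      have h1 : |v y - v z| ≤ 2 * M₀ := by
        have h2 := abs_sub (v y) (v z)
        linarith
      have h2 : 1 ≤ 8 * (G.di y z / R) ^ α := by
        have e1 : (1 : ℝ) ≤ (8 * (G.di y z / R)) ^ α := by
          refine Real.one_le_rpow ?_ hα0.le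
          rw [← mul_div_assoc, le_div_iff₀ hR]
          linarith
        rw [Real.mul_rpow (by norm_num) (by positivity)] at e1
        exact e1.trans (mul_le_mul_of_nonneg_right h8α hdR)
      calc |v y - v z| ≤ 2 * M₀ := h1
        _ = 2 * 1 * M₀ := by ring
        _ ≤ 2 * (8 * (G.di y z / R) ^ α) * M₀ := by gcongr
        _ = (G.di y z / R) ^ α * (16 * M₀) := by ring
        _ ≤ (G.di y z / R) ^ α * (128 * M₀) := by gcongr; norm_num

/-- (DG3) Hölder continuity. -/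
theorem dg_holder (G : Carnot N m) (C1 : ℝ) : ∃ α : ℝ, 0 < α ∧ α < 1 ∧ ∃ C : ℝ, 0 < C ∧
    ∀ (x : Pt N) (R : ℝ), 0 < R → ∀ (v : Pt N → ℝ) (V : Pt N → Hv m),
    (∀ k0 : ℝ, DG G (G.B x R) v V k0 C1) →
    (∀ k0 : ℝ, DG G (G.B x R) (fun y => -v y) (fun y => -V y) k0 C1) →
    IntegrableOn (fun y => v y ^ 2) (G.B x R) →
    ∃ v' : Pt N → ℝ, (∀ᵐ y, y ∈ G.B x (R / 2) → v y = v' y) ∧
      (∀ y ∈ G.B x (R / 2), v' y ^ 2 ≤ C * (R⁻¹ ^ G.Q * ∫ z in G.B x R, v z ^ 2)) ∧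
      ∀ y ∈ G.B x (R / 2), ∀ z ∈ G.B x (R / 2),
        |v' y - v' z| ^ 2 ≤ C * (G.di y z / R) ^ (2 * α) * (R⁻¹ ^ G.Q * ∫ z in G.B x R, v z ^ 2) := by
  obtain ⟨α, hα0, hα1, C, hC, hmain⟩ := hol_ae G C1
  refine ⟨α, hα0, hα1, C, hC, ?_⟩
  intro x R hR v V hv1 hv2 hint
  obtain ⟨E, hE1, hE2⟩ := hmain x R hR v V ⟨hv1, hv2⟩ hint
  set I : ℝ := R⁻¹ ^ G.Q * ∫ z in G.B x R, v z ^ 2 with hIdef
  have hI : 0 ≤ I := mul_nonneg (by positivity) (integral_nonneg fun z => sq_nonneg _)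
  set M : ℝ := Real.sqrt (C * I) * (R ^ α)⁻¹ with hM
  have hM0 : 0 ≤ M := by positivity
  obtain ⟨f, hf1, hf2⟩ := mcshane G (S := E ∩ G.B x (R / 2)) (f := v) hM0 hα0 hα1.le (by
    intro y hy z hz
    refine (hE2 y hy.1 z hz.1 hy.2 hz.2).2.trans (le_of_eq ?_)
    rw [Real.div_rpow (G.di_nonneg _ _) hR.le, hM]
    ring)
  have hfc := continuous_of_holder G hα0 hf2
  have hae : ∀ᵐ y, y ∈ G.B x (R / 2) → v y = f y := by
    filter_upwards [hE1] with y hy hyB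
    exact (hf1 y ⟨hy hyB, hyB⟩).symm
  refine ⟨f, hae, ?_, ?_⟩
  · refine le_of_ae_le (G.isOpen_B x (R / 2)) (hfc.pow 2).continuousOn continuousOn_const ?_
    filter_upwards [hE1, hae] with y hy hy' hyB
    rw [← hy' hyB]
    exact (hE2 y (hy hyB) y (hy hyB) hyB hyB).1
  · intro y _ z _
    have h1 := hf2 y z
    have h2 : |f y - f z| ^ 2 ≤ (M * G.di y z ^ α) ^ 2 := pow_le_pow_left₀ (abs_nonneg _) h1 2
    refine h2.trans (le_of_eq ?_)
    have h3 : (G.di y z / R) ^ (2 * α) = (G.di y z ^ α * (R ^ α)⁻¹) ^ 2 := by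
      rw [mul_comm 2 α, Real.rpow_mul (div_nonneg (G.di_nonneg _ _) hR.le),
        Real.div_rpow (G.di_nonneg _ _) hR.le, div_eq_mul_inv, Real.rpow_two]
    rw [h3, hM]
    have h4 : Real.sqrt (C * I) ^ 2 = C * I := Real.sq_sqrt (by positivity)
    calc (Real.sqrt (C * I) * (R ^ α)⁻¹ * G.di y z ^ α) ^ 2
        = Real.sqrt (C * I) ^ 2 * (G.di y z ^ α * (R ^ α)⁻¹) ^ 2 := by ring
      _ = C * (G.di y z ^ α * (R ^ α)⁻¹) ^ 2 * I := by rw [h4]; ring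

end Pool.Agent.CG
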