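import Mathlib

/-!
# CG-C-Iter (helper66): fast geometric convergence (pure real analysis)

PLAN.  By induction `y n ≤ y 0 * b ^ (-(n : ℝ) / δ)`: `y (n+1) ≤ K b^n (y n)^{1+δ} ≤ K b^n y0^{1+δ} b^{-n(1+δ)/δ} = (K y0^δ) b^{-n/δ} y0`, and
`K y0^δ ≤ b^{-1/δ}` by the hypothesis `y 0 ≤ K^{-1/δ} b^{-1/δ²}`.  Since `b > 1`, `b^{-n/δ} → 0`.
-/

set_option autoImplicit false

namespace Pool.Agent.CG

open Filter Topology

theorem geom_conv {y : ℕ → ℝ} {K b δ : ℝ} (hy : ∀ n, 0 ≤ y n) (hK : 0 < K) (hb : 1 < b) (hδ : 0 < δ)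
    (h : ∀ n, y (n + 1) ≤ K * b ^ n * (y n) ^ (1 + δ))
    (h0 : y 0 ≤ K ^ (-(1 / δ)) * b ^ (-(1 / δ ^ 2))) : Tendsto y atTop (𝓝 0) := by
  have hb0 : 0 < b := by linarith
  obtain ⟨r, hr⟩ : ∃ r : ℝ, r = b ^ (-(1 / δ)) := ⟨_, rfl⟩
  have hr0 : 0 < r := by
    rw [hr]
    exact Real.rpow_pos_of_pos hb0 _
  have hr1 : r < 1 := by
    rw [hr]
    refine Real.rpow_lt_one_of_one_lt_of_neg hb ?_
    have : 0 < 1 / δ := by positivity
    linarith
  have hrδ : r ^ δ = b⁻¹ := by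
    rw [hr, ← Real.rpow_mul hb0.le, ← Real.rpow_neg_one]
    congr 1
    field_simp
  have hk : K * y 0 ^ δ ≤ r := by
    have h1 : y 0 ^ δ ≤ (K ^ (-(1 / δ)) * b ^ (-(1 / δ ^ 2))) ^ δ :=
      Real.rpow_le_rpow (hy 0) h0 hδ.le
    have h2 : (K ^ (-(1 / δ)) * b ^ (-(1 / δ ^ 2))) ^ δ = K⁻¹ * r := by
      rw [Real.mul_rpow (Real.rpow_nonneg hK.le _) (Real.rpow_nonneg hb0.le _),
        ← Real.rpow_mul hK.le, ← Real.rpow_mul hb0.le, hr, ← Real.rpow_neg_one]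
      congr 2
      · field_simp
      · field_simp
    rw [h2] at h1
    calc K * y 0 ^ δ ≤ K * (K⁻¹ * r) := mul_le_mul_of_nonneg_left h1 hK.le
      _ = r := by
        rw [← mul_assoc, mul_inv_cancel₀ hK.ne', one_mul]
  have hmain : ∀ n, y n ≤ y 0 * r ^ n := by
    intro n
    induction n with
    | zero => simp
    | succ n ih =>
      have hrn : 0 < r ^ n := pow_pos hr0 n
      have h1 : (y n) ^ (1 + δ) ≤ (y 0 * r ^ n) ^ (1 + δ) :=
        Real.rpow_le_rpow (hy n) ih (by linarith)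
      have h2 : (y 0 * r ^ n) ^ (1 + δ) = y 0 * y 0 ^ δ * (r ^ n * (b⁻¹) ^ n) := by
        rw [Real.mul_rpow (hy 0) hrn.le, Real.rpow_one_add' (hy 0) (by linarith),
          Real.rpow_one_add' hrn.le (by linarith)]
        congr 2
        rw [← Real.rpow_natCast, ← Real.rpow_mul hr0.le, mul_comm (n : ℝ) δ,
          Real.rpow_mul hr0.le, hrδ, Real.rpow_natCast]
      have hbn : 0 < b ^ n := pow_pos hb0 n
      calc y (n + 1) ≤ K * b ^ n * (y n) ^ (1 + δ) := h n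
        _ ≤ K * b ^ n * (y 0 * y 0 ^ δ * (r ^ n * (b⁻¹) ^ n)) := by
          rw [← h2]
          exact mul_le_mul_of_nonneg_left h1 (by positivity)
        _ = (K * y 0 ^ δ) * (y 0 * r ^ n) * (b ^ n * (b⁻¹) ^ n) := by ring
        _ = (K * y 0 ^ δ) * (y 0 * r ^ n) := by
          rw [← mul_pow, mul_inv_cancel₀ hb0.ne', one_pow, mul_one]
        _ ≤ r * (y 0 * r ^ n) := mul_le_mul_of_nonneg_right hk (mul_nonneg (hy 0) hrn.le)
        _ = y 0 * r ^ (n + 1) := by ring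
  have hlim : Tendsto (fun n => y 0 * r ^ n) atTop (𝓝 0) := by
    have h1 := (tendsto_pow_atTop_nhds_zero_of_lt_one hr0.le hr1).const_mul (y 0)
    rwa [mul_zero] at h1
  exact squeeze_zero hy hmain hlim

end Pool.Agent.CG
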