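import Pool.Agent.CG.C.SupStep
import Pool.Agent.CG.C.Iter

/-!
# CG-C-Sup (helper66): (DG1) local boundedness

PLAN.  Case `Q = 0` (`N = 0` since all weights are `≥ 1`): `Pt 0` is a point of volume `1`, the integral over `B x R = univ` is the value of
the integrand, `C = 1`.  Case `Q ≥ 1`: `I = ∫_{B x R} (v - k)_+²`.  If `I = 0` then `v ≤ k` a.e. on `B x R`.  Otherwise for `h > 0` let
`k_j = k + h (1 - 2^{-j})`, `r_j = (R/2) (1 + 2^{-j})`, `y_j = ∫_{B x r_j} (v - k_j)_+²` (`y_0 = I`; all integrable by comparison with `(v-k)_+²`).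
`sup_step` (`l = k_j`, `l' = k_{j+1}`, `r = r_j`, `r' = r_{j+1}`; `l' - l = h 2^{-j-1}`, `r - r' = R 2^{-j-2}`):
`y_{j+1} ≤ C 16 R^{-2} 4^j (4 h^{-2} 4^{j})^{2/Q} y_j^{1+2/Q} = K b^j y_j^{1+δ}`, `δ = 2/Q`, `b = 4 · 4^{2/Q}`, `K = 16 C R^{-2} (4 h^{-2})^{2/Q}`.
`geom_conv` applies if `I ≤ K^{-Q/2} b^{-Q²/4} = c' R^Q h²` (`c'` depends on `C`, `Q` only): choose `h² = I R^{-Q} / c'`.  So
`∫_{B x (R/2)} (v - k - h)_+² ≤ y_j → 0` (`r_j > R/2`, `k_j < k + h`), `v ≤ k + h` a.e. on `B x (R/2)` and `(v - k)_+² ≤ h²`.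
-/

set_option autoImplicit false

namespace Pool.Agent.CG

open MeasureTheory Set Filter Topology
open scoped ContDiff ENNReal

variable {N m : ℕ}

private theorem dgs_B_mono (G : Carnot N m) (x : Pt N) {r r' : ℝ} (h : r' ≤ r) :
    G.B x r' ⊆ G.B x r := by
  intro y hy
  have hy' : G.ell (G.mul (-x) y) < r' := hy
  exact lt_of_lt_of_le hy' h

/-- integrability at higher levels -/
private theorem dgs_int {S : Set (Pt N)} {v : Pt N → ℝ} {k l : ℝ} (hkl : k ≤ l)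
    (h : IntegrableOn (fun y => (max (v y - k) 0) ^ 2) S) :
    IntegrableOn (fun y => (max (v y - l) 0) ^ 2) S := by
  have hc : Continuous (fun t : ℝ => (max (Real.sqrt t - (l - k)) 0) ^ 2) := by fun_prop
  have he : (fun y => (max (v y - l) 0) ^ 2) =
      fun y => (max (Real.sqrt ((max (v y - k) 0) ^ 2) - (l - k)) 0) ^ 2 := by
    funext y
    rw [Real.sqrt_sq (le_max_right _ _)]
    congr 1
    rcases le_total (v y - k) 0 with h1 | h1
    · rw [max_eq_right h1, max_eq_right (by linarith), max_eq_right (by linarith)]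
    · rw [max_eq_left h1]
      congr 1
      ring
  have hm : AEStronglyMeasurable (fun y => (max (v y - l) 0) ^ 2) (volume.restrict S) := by
    rw [he]
    exact hc.comp_aestronglyMeasurable h.aestronglyMeasurable
  refine Integrable.mono' h hm (Eventually.of_forall fun y => ?_)
  rw [Real.norm_of_nonneg (sq_nonneg _)]
  have h1 : max (v y - l) 0 ≤ max (v y - k) 0 := max_le_max (by linarith) le_rfl
  exact pow_le_pow_left₀ (le_max_right _ _) h1 2

private theorem dgs_core (G : Carnot N m) {x : Pt N} {R k h C δ : ℝ} {v : Pt N → ℝ} (hR : 0 < R)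
    (hh : 0 < h) (hC : 0 < C) (hδ : 0 < δ)
    (hstep : ∀ (l l' r r' : ℝ), k ≤ l → l < l' → 0 < r' → r' < r → r ≤ R →
      IntegrableOn (fun y => (max (v y - l) 0) ^ 2) (G.B x r) →
      ∫ y in G.B x r', (max (v y - l') 0) ^ 2 ≤
        C * (r - r')⁻¹ ^ 2 * ((l' - l)⁻¹ ^ 2 * ∫ y in G.B x r, (max (v y - l) 0) ^ 2) ^ δ *
          ∫ y in G.B x r, (max (v y - l) 0) ^ 2)
    (hint : IntegrableOn (fun y => (max (v y - k) 0) ^ 2) (G.B x R))
    (hI : ∫ y in G.B x R, (max (v y - k) 0) ^ 2 ≤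
      (16 * C * R⁻¹ ^ 2 * (4 * h⁻¹ ^ 2) ^ δ) ^ (-(1 / δ)) * (4 * (4 : ℝ) ^ δ) ^ (-(1 / δ ^ 2))) :
    ∀ᵐ y, y ∈ G.B x (R / 2) → v y ≤ k + h := by
  set kk : ℕ → ℝ := fun j => k + h * (1 - (2 : ℝ)⁻¹ ^ j) with hkk
  set rr : ℕ → ℝ := fun j => R / 2 * (1 + (2 : ℝ)⁻¹ ^ j) with hrr
  have hp : ∀ j : ℕ, (0 : ℝ) < (2 : ℝ)⁻¹ ^ j := fun j => by positivity
  have hp1 : ∀ j : ℕ, (2 : ℝ)⁻¹ ^ j ≤ 1 := fun j => pow_le_one₀ (by norm_num) (by norm_num)
  have hkk0 : ∀ j, k ≤ kk j := by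
    intro j
    simp only [hkk]
    have := mul_nonneg hh.le (sub_nonneg.2 (hp1 j))
    linarith
  have hkk1 : ∀ j, kk j ≤ k + h := by
    intro j
    simp only [hkk]
    have := mul_pos hh (hp j)
    nlinarith
  have hkkd : ∀ j, kk (j + 1) - kk j = h * (2 : ℝ)⁻¹ ^ (j + 1) := by
    intro j
    simp only [hkk]
    rw [pow_succ]
    ring
  have hrrR : ∀ j, rr j ≤ R := by
    intro j
    simp only [hrr]
    nlinarith [hp1 j]
  have hrr2 : ∀ j, R / 2 < rr j := by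
    intro j
    simp only [hrr]
    nlinarith [mul_pos hR (hp j)]
  have hrrd : ∀ j, rr j - rr (j + 1) = R * (2 : ℝ)⁻¹ ^ (j + 2) := by
    intro j
    simp only [hrr]
    rw [pow_succ, pow_succ, pow_succ]
    ring
  set y : ℕ → ℝ := fun j => ∫ z in G.B x (rr j), (max (v z - kk j) 0) ^ 2 with hy
  have hyn : ∀ j, 0 ≤ y j := fun j => integral_nonneg fun z => sq_nonneg _
  have hintj : ∀ j, IntegrableOn (fun z => (max (v z - kk j) 0) ^ 2) (G.B x (rr j)) := fun j =>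
    (dgs_int (hkk0 j) hint).mono_set (dgs_B_mono G x (hrrR j))
  have hK : 0 < 16 * C * R⁻¹ ^ 2 * (4 * h⁻¹ ^ 2) ^ δ := by positivity
  have hb : (1 : ℝ) < 4 * (4 : ℝ) ^ δ := by
    have h1 : (1 : ℝ) ≤ (4 : ℝ) ^ δ := Real.one_le_rpow (by norm_num) hδ.le
    linarith
  have hrec : ∀ j, y (j + 1) ≤
      16 * C * R⁻¹ ^ 2 * (4 * h⁻¹ ^ 2) ^ δ * (4 * (4 : ℝ) ^ δ) ^ j * (y j) ^ (1 + δ) := by
    intro j
    have h1 := hstep (kk j) (kk (j + 1)) (rr j) (rr (j + 1)) (hkk0 j)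
      (by have := hkkd j; have := mul_pos hh (hp (j + 1)); linarith)
      (by have := hrr2 (j + 1); linarith)
      (by have := hrrd j; have := mul_pos hR (hp (j + 2)); linarith) (hrrR j) (hintj j)
    refine h1.trans (le_of_eq ?_)
    have e0 : (∫ z in G.B x (rr j), (max (v z - kk j) 0) ^ 2) = y j := rfl
    rw [e0, hkkd j, hrrd j]
    have e1 : (R * (2 : ℝ)⁻¹ ^ (j + 2))⁻¹ ^ 2 = 16 * R⁻¹ ^ 2 * 4 ^ j := by
      have : (4 : ℝ) ^ j = 2 ^ j * 2 ^ j := by rw [← mul_pow]; norm_num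
      rw [mul_inv, inv_pow, inv_inv, this]
      ring
    have e2 : (h * (2 : ℝ)⁻¹ ^ (j + 1))⁻¹ ^ 2 = 4 * h⁻¹ ^ 2 * 4 ^ j := by
      have : (4 : ℝ) ^ j = 2 ^ j * 2 ^ j := by rw [← mul_pow]; norm_num
      rw [mul_inv, inv_pow, inv_inv, this]
      ring
    rw [e1, e2, Real.mul_rpow (by positivity) (hyn j), Real.mul_rpow (by positivity) (by positivity),
      Real.rpow_add_of_nonneg (hyn j) (by norm_num) hδ.le, Real.rpow_one, mul_pow]
    have e3 : ((4 : ℝ) ^ j) ^ δ = ((4 : ℝ) ^ δ) ^ j := by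
      rw [← Real.rpow_natCast, ← Real.rpow_natCast, ← Real.rpow_mul (by norm_num),
        ← Real.rpow_mul (by norm_num), mul_comm]
    rw [e3]
    ring
  have hy0 : y 0 ≤ (16 * C * R⁻¹ ^ 2 * (4 * h⁻¹ ^ 2) ^ δ) ^ (-(1 / δ)) *
      (4 * (4 : ℝ) ^ δ) ^ (-(1 / δ ^ 2)) := by
    have e1 : y 0 = ∫ z in G.B x R, (max (v z - k) 0) ^ 2 := by
      simp only [hy, hkk, hrr, pow_zero, sub_self, mul_zero, add_zero]
      rw [show R / 2 * (1 + 1) = R by ring]
    rw [e1]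
    exact hI
  have hlim := geom_conv hyn hK hb hδ hrec hy0
  have hle : ∀ j, ∫ z in G.B x (R / 2), (max (v z - (k + h)) 0) ^ 2 ≤ y j := by
    intro j
    have i1 : IntegrableOn (fun z => (max (v z - (k + h)) 0) ^ 2) (G.B x (rr j)) :=
      dgs_int (hkk1 j) (hintj j)
    have h1 : ∫ z in G.B x (R / 2), (max (v z - (k + h)) 0) ^ 2 ≤
        ∫ z in G.B x (rr j), (max (v z - (k + h)) 0) ^ 2 :=
      setIntegral_mono_set i1 (Eventually.of_forall fun z => sq_nonneg _)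
        (dgs_B_mono G x (hrr2 j).le).eventuallyLE
    refine h1.trans (integral_mono i1 (hintj j) fun z => ?_)
    have h2 : max (v z - (k + h)) 0 ≤ max (v z - kk j) 0 :=
      max_le_max (by have := hkk1 j; linarith) le_rfl
    exact pow_le_pow_left₀ (le_max_right _ _) h2 2
  have hzero : ∫ z in G.B x (R / 2), (max (v z - (k + h)) 0) ^ 2 ≤ 0 :=
    ge_of_tendsto' hlim hle
  have hzero' : ∫ z in G.B x (R / 2), (max (v z - (k + h)) 0) ^ 2 = 0 :=
    le_antisymm hzero (integral_nonneg fun z => sq_nonneg _)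
  have i2 : IntegrableOn (fun z => (max (v z - (k + h)) 0) ^ 2) (G.B x (R / 2)) :=
    (dgs_int (by linarith) hint).mono_set (dgs_B_mono G x (by linarith))
  rw [setIntegral_eq_zero_iff_of_nonneg_ae (Eventually.of_forall fun z => sq_nonneg _) i2] at hzero'
  rw [EventuallyEq, ae_restrict_iff' (G.isOpen_B x (R / 2)).measurableSet] at hzero'
  filter_upwards [hzero'] with z hz hzB
  have h3 : (max (v z - (k + h)) 0) ^ 2 = 0 := hz hzB
  have h4 : max (v z - (k + h)) 0 = 0 := by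
    exact pow_eq_zero_iff (two_ne_zero) |>.1 h3
  have h5 := le_max_left (v z - (k + h)) 0
  rw [h4] at h5
  linarith

/-- the case of a group of dimension zero -/
private theorem dgs_zero (G : Carnot N m) (hQ : G.Q = 0) (x : Pt N) {R : ℝ} (hR : 0 < R)
    (f : Pt N → ℝ) (y : Pt N) : f y = ∫ z in G.B x R, f z := by
  have hN : IsEmpty (Fin N) := by
    refine ⟨fun i => ?_⟩
    have h1 : G.deg i ≤ G.Q := Finset.single_le_sum (f := G.deg) (fun _ _ => Nat.zero_le _)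
      (Finset.mem_univ i)
    have h2 := G.deg_pos i
    omega
  have hB : G.B x R = Set.univ := by
    ext z
    simp only [Set.mem_univ, iff_true]
    have hz : z = x := Subsingleton.elim _ _
    rw [hz]
    change G.di x x < R
    rw [G.di_self]
    exact hR
  rw [hB, Measure.restrict_univ]
  have hv : (volume : Measure (Pt N)) = Measure.dirac y := Measure.pi_of_empty _ _
  rw [hv, integral_dirac]

/-- (DG1) local boundedness. -/
theorem dg_sup (G : Carnot N m) (C1 : ℝ) : ∃ C : ℝ, 0 < C ∧ ∀ (x : Pt N) (R : ℝ), 0 < R →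
    ∀ (v : Pt N → ℝ) (V : Pt N → Hv m) (k0 k : ℝ), DG G (G.B x R) v V k0 C1 → k0 ≤ k →
    IntegrableOn (fun y => (max (v y - k) 0) ^ 2) (G.B x R) →
    ∀ᵐ y, y ∈ G.B x (R / 2) →
      (max (v y - k) 0) ^ 2 ≤ C * (R⁻¹ ^ G.Q * ∫ z in G.B x R, (max (v z - k) 0) ^ 2) := by
  by_cases hQ0 : G.Q = 0
  · refine ⟨1, one_pos, fun x R hR v V k0 k _ _ _ => Eventually.of_forall fun y _ => ?_⟩
    rw [hQ0, pow_zero, one_mul, one_mul]
    exact le_of_eq (dgs_zero G hQ0 x hR (fun z => (max (v z - k) 0) ^ 2) y)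
  have hQ : 1 ≤ G.Q := by omega
  obtain ⟨C, hC, hstep⟩ := sup_step G hQ C1
  have hQr : (0 : ℝ) < (G.Q : ℝ) := by exact_mod_cast hQ
  set δ : ℝ := 2 / (G.Q : ℝ) with hδ
  have hδ0 : 0 < δ := by positivity
  set c' : ℝ := (16 * C) ^ (-(1 / δ)) * (4 * (4 : ℝ) ^ δ) ^ (-(1 / δ ^ 2)) / 4 with hc'
  have hc0 : 0 < c' := by positivity
  refine ⟨c'⁻¹, inv_pos.2 hc0, fun x R hR v V k0 k hDG hk hint => ?_⟩
  set I : ℝ := ∫ z in G.B x R, (max (v z - k) 0) ^ 2 with hI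
  have hI0 : 0 ≤ I := integral_nonneg fun z => sq_nonneg _
  rcases hI0.eq_or_lt with hI1 | hI1
  · -- the integral is zero
    have h1 : ∫ z in G.B x R, (max (v z - k) 0) ^ 2 = 0 := hI1.symm
    rw [setIntegral_eq_zero_iff_of_nonneg_ae (Eventually.of_forall fun z => sq_nonneg _) hint] at h1
    rw [EventuallyEq, ae_restrict_iff' (G.isOpen_B x R).measurableSet] at h1
    filter_upwards [h1] with z hz hzB
    have h2 : (max (v z - k) 0) ^ 2 = 0 := hz (dgs_B_mono G x (by linarith) hzB)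
    rw [h2]
    positivity
  · set h : ℝ := Real.sqrt (c'⁻¹ * (R⁻¹ ^ G.Q * I)) with hh
    have hpos : 0 < c'⁻¹ * (R⁻¹ ^ G.Q * I) := by positivity
    have hh0 : 0 < h := Real.sqrt_pos.2 hpos
    have hh2 : h ^ 2 = c'⁻¹ * (R⁻¹ ^ G.Q * I) := Real.sq_sqrt hpos.le
    have hkey : (16 * C * R⁻¹ ^ 2 * (4 * h⁻¹ ^ 2) ^ δ) ^ (-(1 / δ)) *
        (4 * (4 : ℝ) ^ δ) ^ (-(1 / δ ^ 2)) = I := by
      have e1 : (R⁻¹ ^ 2) ^ (-(1 / δ)) = R ^ G.Q := by
        have e2 : (R⁻¹ ^ 2 : ℝ) = R ^ (-2 : ℝ) := by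
          rw [Real.rpow_neg hR.le, inv_pow]
          norm_num
        rw [e2, ← Real.rpow_mul hR.le, ← Real.rpow_natCast]
        congr 1
        rw [hδ]
        field_simp
      have e3 : ((4 * h⁻¹ ^ 2) ^ δ) ^ (-(1 / δ)) = h ^ 2 / 4 := by
        rw [← Real.rpow_mul (by positivity)]
        have e4 : δ * -(1 / δ) = -1 := by field_simp
        rw [e4, Real.rpow_neg_one]
        field_simp
      rw [Real.mul_rpow (by positivity) (by positivity), Real.mul_rpow (by positivity) (by positivity),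
        e1, e3, hh2]
      have e5 : R ^ G.Q * R⁻¹ ^ G.Q = 1 := by
        rw [← mul_pow, mul_inv_cancel₀ hR.ne', one_pow]
      have e6 : c'⁻¹ * c' = 1 := inv_mul_cancel₀ hc0.ne'
      calc (16 * C) ^ (-(1 / δ)) * R ^ G.Q * (c'⁻¹ * (R⁻¹ ^ G.Q * I) / 4) *
            (4 * (4 : ℝ) ^ δ) ^ (-(1 / δ ^ 2))
          = (R ^ G.Q * R⁻¹ ^ G.Q) * (c'⁻¹ * ((16 * C) ^ (-(1 / δ)) *
              (4 * (4 : ℝ) ^ δ) ^ (-(1 / δ ^ 2)) / 4)) * I := by ring
        _ = (R ^ G.Q * R⁻¹ ^ G.Q) * (c'⁻¹ * c') * I := by rw [← hc']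
        _ = I := by rw [e5, e6]; ring
    have hres := dgs_core G (v := v) (k := k) hR hh0 hC hδ0
      (fun l l' r r' h1 h2 h3 h4 h5 h6 =>
        hstep x R hR v V k0 hDG l l' r r' (hk.trans h1) h2 h3 h4 h5 h6) hint (le_of_eq hkey.symm)
    filter_upwards [hres] with z hz hzB
    have h7 := hz hzB
    rw [← hh2]
    refine pow_le_pow_left₀ (le_max_right _ _) (max_le (by linarith) hh0.le) 2

end Pool.Agent.CG
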