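import Pool.Agent.CG.C.OscStep
import Pool.Agent.CG.C.Sup

/-!
# CG-C-Osc (helper66): (DG2) the measure-to-uniform lemma

PLAN.  `k_j = M - 2^{-j} (M - k)`, `a_j = |B x R ∩ {v > k_j}|` (decreasing in `j`), `d_j = |B x (3R) ∩ {k_j < v ≤ k_{j+1}}|`.
`osc_level` (`l = k_j`, `l' = k_{j+1}`, `l' - l = 2^{-j-1} (M-k)`, `M - l = 2^{-j} (M - k)`): `a_{j+1}² ≤ 4 C |B x R| d_j`; sum over `j < J`, disjoint
sets in `B x (3R)`: `J a_J² ≤ 4 C |B x R| |B x (3R)| = 4 C 3^Q |B x R|²` (`G.vol_B`).  `dg_sup` on `B x R` at level `k_J` (`DG.mono` from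
`B x (4R)` to `B x R`): on `B x (R/2)`: `(v - k_J)_+² ≤ C' R^{-Q} ∫_{B x R} (v - k_J)_+² ≤ C' R^{-Q} a_J (2^{-J} (M - k))² ≤ C'' J^{-1/2} (2^{-J} (M-k))²`
(`R^{-Q} |B x R| = |B 0 1|`).  Choose `J` with `C'' J^{-1/2} ≤ 1/4`: `v ≤ k_J + (1/2) 2^{-J} (M - k) = M - 2^{-J-1} (M - k)`; `c = 2^{-J-1}`.
-/

set_option autoImplicit false

namespace Pool.Agent.CG

open MeasureTheory Set Filter Topology
open scoped ContDiff ENNReal

variable {N m : ℕ}

private theorem osc_sum {α : Type} [MeasurableSpace α] (μ : Measure α) [IsFiniteMeasure μ]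
    (v : α → ℝ) (hv : AEStronglyMeasurable v μ) (κ : ℕ → ℝ) (hκ : Monotone κ) (J : ℕ) :
    ∑ j ∈ Finset.range J, μ.real {y | κ j < v y ∧ v y ≤ κ (j + 1)} ≤ μ.real univ := by
  have hm : ∀ j, NullMeasurableSet {y | κ j < v y ∧ v y ≤ κ (j + 1)} μ := by
    intro j
    have h1 : NullMeasurableSet {y | κ j < v y} μ := nullMeasurableSet_lt aemeasurable_const
      hv.aemeasurable
    have h2 : NullMeasurableSet {y | v y ≤ κ (j + 1)} μ := nullMeasurableSet_le hv.aemeasurable
      aemeasurable_const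
    exact h1.inter h2
  have hd : Set.Pairwise (↑(Finset.range J) : Set ℕ)
      (Function.onFun (AEDisjoint μ) fun j => {y | κ j < v y ∧ v y ≤ κ (j + 1)}) := by
    intro i _ j _ hij
    refine Disjoint.aedisjoint ?_
    rw [Set.disjoint_left]
    rintro y ⟨h1, h2⟩ ⟨h3, h4⟩
    rcases lt_or_gt_of_ne hij with h | h
    · have := hκ (show i + 1 ≤ j from h)
      linarith
    · have := hκ (show j + 1 ≤ i from h)
      linarith
  have h1 := sum_measure_le_measure_univ (μ := μ) (fun j _ => hm j) hd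
  have h2 : (∑ j ∈ Finset.range J, μ {y | κ j < v y ∧ v y ≤ κ (j + 1)}).toReal ≤
      (μ univ).toReal := ENNReal.toReal_mono (measure_ne_top μ _) h1
  rw [ENNReal.toReal_sum (fun j _ => measure_ne_top μ _)] at h2
  exact h2

/-- (DG2) the measure-to-uniform lemma. -/
theorem dg_osc (G : Carnot N m) (C1 θ : ℝ) (hθ : 0 < θ) : ∃ c : ℝ, 0 < c ∧ c < 1 ∧
    ∀ (x : Pt N) (R : ℝ), 0 < R → ∀ (v : Pt N → ℝ) (V : Pt N → Hv m) (k0 k M : ℝ),
    DG G (G.B x (4 * R)) v V k0 C1 → k0 ≤ k → k < M →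
    (∀ᵐ y, y ∈ G.B x (4 * R) → v y ≤ M) →
    θ * volume.real (G.B x R) ≤ volume.real (G.B x R ∩ {y | v y ≤ k}) →
    ∀ᵐ y, y ∈ G.B x (R / 2) → v y ≤ M - c * (M - k) := by
  obtain ⟨A, hA, hlev⟩ := osc_level G C1 θ hθ
  obtain ⟨Cs, hCs, hsup⟩ := dg_sup G C1
  set V0 : ℝ := volume.real (G.B 0 1) with hV0
  obtain ⟨J, hJ⟩ := exists_nat_gt (64 * A * 3 ^ G.Q * V0 ^ 2 * Cs ^ 2)
  have hJpos : (0 : ℝ) < J := lt_of_le_of_lt (by positivity) hJ
  refine ⟨(1 / 2) ^ (J + 1), by positivity, ?_, ?_⟩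
  · have h1 : ((1 : ℝ) / 2) ^ (J + 1) ≤ (1 / 2) ^ 1 :=
      pow_le_pow_of_le_one (by norm_num) (by norm_num) (by omega)
    linarith
  intro x R hR v V k0 k M hdg hk hkM hM hth
  -- volumes
  have hvol : ∀ r : ℝ, 0 < r → volume.real (G.B x r) = r ^ G.Q * V0 := by
    intro r hr
    rw [Measure.real, G.vol_B x hr, ENNReal.toReal_mul, ENNReal.toReal_ofReal (by positivity)]
    rfl
  have hfin : ∀ r : ℝ, volume (G.B x r) ≠ ⊤ := fun r => (G.vol_B_lt_top x r).ne
  have hsub : ∀ r r' : ℝ, r ≤ r' → G.B x r ⊆ G.B x r' := fun r r' h y hy => lt_of_lt_of_le hy h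
  -- levels
  set κ : ℕ → ℝ := fun j => M - (1 / 2) ^ j * (M - k) with hκ
  have hMk : 0 < M - k := by linarith
  have hhalf : ∀ j : ℕ, (0 : ℝ) < (1 / 2) ^ j := fun j => by positivity
  have hκmono : Monotone κ := by
    intro i j hij
    have h1 : ((1 : ℝ) / 2) ^ j ≤ (1 / 2) ^ i :=
      pow_le_pow_of_le_one (by norm_num) (by norm_num) hij
    simp only [hκ]
    nlinarith
  have hκk : ∀ j, k ≤ κ j := by
    intro j
    have h1 : ((1 : ℝ) / 2) ^ j ≤ 1 := pow_le_one₀ (by norm_num) (by norm_num)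
    simp only [hκ]
    nlinarith
  have hκM : ∀ j, κ j < M := by
    intro j
    simp only [hκ]
    nlinarith [hhalf j, mul_pos (hhalf j) hMk]
  have hκs : ∀ j, κ (j + 1) - κ j = (1 / 2) ^ (j + 1) * (M - k) := by
    intro j
    simp only [hκ, pow_succ]
    ring
  -- measurability on the larger ball
  have hmeas : ∀ r : ℝ, r < 4 * R → AEStronglyMeasurable v (volume.restrict (G.B x r)) := by
    intro r hr
    have h1 := (hdg.lq {y | G.di x y ≤ r} (G.isCompact_cB x r) (fun y hy => by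
      show G.ell (G.mul (-x) y) < 4 * R
      exact lt_of_le_of_lt hy hr)).1
    have h2 : G.B x r ⊆ {y | G.di x y ≤ r} := fun y hy => le_of_lt (show G.di x y < r from hy)
    exact h1.mono_measure (Measure.restrict_mono h2 le_rfl)
  -- the sets
  set a : ℕ → ℝ := fun j => volume.real (G.B x R ∩ {y | κ j < v y}) with ha
  set d : ℕ → ℝ := fun j => volume.real (G.B x (3 * R) ∩ {y | κ j < v y ∧ v y ≤ κ (j + 1)}) with hd
  have ha0 : ∀ j, 0 ≤ a j := fun j => measureReal_nonneg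
  have hanti : ∀ i j, i ≤ j → a j ≤ a i := by
    intro i j hij
    refine measureReal_mono (fun y hy => ⟨hy.1, ?_⟩) ?_
    · exact lt_of_le_of_lt (hκmono hij) hy.2
    · exact ne_top_of_le_ne_top (hfin R) (measure_mono inter_subset_left)
  have hstep : ∀ j, a (j + 1) ^ 2 ≤ 4 * A * volume.real (G.B x R) * d j := by
    intro j
    have h1 := hlev x R hR v V k0 k M hdg hk hkM hM hth (κ j) (κ (j + 1)) (hκk j)
      (by have := hκs j; have := mul_pos (hhalf (j + 1)) hMk; linarith) (hκM (j + 1))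
    rw [hκs j] at h1
    have h2 : M - κ j = (1 / 2) ^ j * (M - k) := by simp only [hκ]; ring
    rw [h2] at h1
    have h3 : ((1 / 2 : ℝ) ^ (j + 1) * (M - k) * a (j + 1)) ^ 2 ≤
        A * ((1 / 2) ^ j * (M - k)) ^ 2 * volume.real (G.B x R) * d j := h1
    have h4 : ((1 / 2 : ℝ) ^ (j + 1) * (M - k) * a (j + 1)) ^ 2 =
        ((1 / 2) ^ j * (M - k)) ^ 2 * (a (j + 1) ^ 2 / 4) := by
      rw [pow_succ]
      ring
    rw [h4] at h3
    have h5 : 0 < ((1 / 2 : ℝ) ^ j * (M - k)) ^ 2 := by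
      have := mul_pos (hhalf j) hMk
      positivity
    have h6 : ((1 / 2 : ℝ) ^ j * (M - k)) ^ 2 * (a (j + 1) ^ 2 / 4) ≤
        ((1 / 2 : ℝ) ^ j * (M - k)) ^ 2 * (A * volume.real (G.B x R) * d j) := by
      refine h3.trans (le_of_eq ?_)
      ring
    have h7 := le_of_mul_le_mul_left h6 h5
    linarith
  have hsum : ∑ j ∈ Finset.range J, d j ≤ volume.real (G.B x (3 * R)) := by
    have : IsFiniteMeasure (volume.restrict (G.B x (3 * R))) :=
      ⟨by rw [Measure.restrict_apply_univ]; exact G.vol_B_lt_top x _⟩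
    have h1 := osc_sum (volume.restrict (G.B x (3 * R))) v (hmeas (3 * R) (by linarith)) κ hκmono J
    have h2 : ∀ S : Set (Pt N), (volume.restrict (G.B x (3 * R))).real S =
        volume.real (G.B x (3 * R) ∩ S) := by
      intro S
      rw [Measure.real, Measure.real, Measure.restrict_apply' (G.isOpen_B x _).measurableSet,
        inter_comm]
    rw [h2, inter_univ] at h1
    simp only [h2] at h1
    exact h1
  have hmain : (J : ℝ) * a J ^ 2 ≤ 4 * A * volume.real (G.B x R) * volume.real (G.B x (3 * R)) := by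
    have h1 : ∑ j ∈ Finset.range J, a J ^ 2 ≤
        ∑ j ∈ Finset.range J, 4 * A * volume.real (G.B x R) * d j := by
      refine Finset.sum_le_sum fun j hj => ?_
      refine le_trans ?_ (hstep j)
      have h2 := hanti (j + 1) J (Finset.mem_range.1 hj)
      exact pow_le_pow_left₀ (ha0 J) h2 2
    rw [Finset.sum_const, Finset.card_range, nsmul_eq_mul, ← Finset.mul_sum] at h1
    refine h1.trans ?_
    exact mul_le_mul_of_nonneg_left hsum (by positivity)
  -- the upper bound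
  have hdg' : DG G (G.B x R) v V k0 C1 := hdg.mono (hsub R (4 * R) (by linarith)) le_rfl le_rfl
  have hfinR : IsFiniteMeasure (volume.restrict (G.B x R)) :=
    ⟨by rw [Measure.restrict_apply_univ]; exact G.vol_B_lt_top x _⟩
  have hmR := hmeas R (by linarith)
  have hMR : ∀ᵐ y ∂(volume.restrict (G.B x R)), v y ≤ M := by
    rw [ae_restrict_iff' (G.isOpen_B x R).measurableSet]
    filter_upwards [hM] with y hy hyB
    exact hy (hsub R (4 * R) (by linarith) hyB)
  have hw : M - κ J = (1 / 2) ^ J * (M - k) := by simp only [hκ]; ring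
  have hw0 : 0 < M - κ J := by rw [hw]; exact mul_pos (hhalf J) hMk
  have hgm : AEStronglyMeasurable (fun y => (max (v y - κ J) 0) ^ 2)
      (volume.restrict (G.B x R)) :=
    ((hmR.sub aestronglyMeasurable_const).sup aestronglyMeasurable_const).pow 2
  have hbd : ∀ᵐ y ∂(volume.restrict (G.B x R)),
      (max (v y - κ J) 0) ^ 2 ≤ {y | κ J < v y}.indicator (fun _ => (M - κ J) ^ 2) y := by
    filter_upwards [hMR] with y hy
    by_cases h : κ J < v y
    · rw [indicator_of_mem (show y ∈ {y | κ J < v y} from h)]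
      refine pow_le_pow_left₀ (le_max_right _ _) ?_ 2
      exact max_le (by linarith) hw0.le
    · rw [indicator_of_notMem (show y ∉ {y | κ J < v y} from h), max_eq_right (by linarith)]
      norm_num
  have hmS : NullMeasurableSet {y | κ J < v y} (volume.restrict (G.B x R)) :=
    nullMeasurableSet_lt aemeasurable_const hmR.aemeasurable
  have hindI : Integrable ({y | κ J < v y}.indicator (fun _ : Pt N => (M - κ J) ^ 2))
      (volume.restrict (G.B x R)) := (integrable_const _).indicator₀ hmS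
  have hint : IntegrableOn (fun y => (max (v y - κ J) 0) ^ 2) (G.B x R) := by
    refine Integrable.mono' hindI hgm ?_
    filter_upwards [hbd] with y hy
    rw [Real.norm_of_nonneg (by positivity)]
    exact hy
  have hI : ∫ z in G.B x R, (max (v z - κ J) 0) ^ 2 ≤ (M - κ J) ^ 2 * a J := by
    refine (integral_mono_ae hint hindI hbd).trans (le_of_eq ?_)
    rw [integral_indicator₀ hmS, setIntegral_const, smul_eq_mul, mul_comm]
    congr 1
    rw [Measure.real, Measure.restrict_apply' (G.isOpen_B x _).measurableSet, inter_comm]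
    rfl
  have hres := hsup x R hR v V k0 (κ J) hdg' (hk.trans (hκk J)) hint
  -- the final estimate
  have hRQ : 0 < R ^ G.Q := by positivity
  set b : ℝ := R⁻¹ ^ G.Q * a J with hb
  have hb0 : 0 ≤ b := mul_nonneg (by positivity) (ha0 J)
  have hab : a J = R ^ G.Q * b := by
    rw [hb, ← mul_assoc, ← mul_pow, mul_inv_cancel₀ hR.ne', one_pow, one_mul]
  have hbb : (J : ℝ) * b ^ 2 ≤ 4 * A * 3 ^ G.Q * V0 ^ 2 := by
    rw [hvol R hR, hvol (3 * R) (by linarith), hab, mul_pow 3 R] at hmain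
    have h1 : (R ^ G.Q) ^ 2 * ((J : ℝ) * b ^ 2) ≤ (R ^ G.Q) ^ 2 * (4 * A * 3 ^ G.Q * V0 ^ 2) := by
      refine le_trans (le_of_eq ?_) (hmain.trans (le_of_eq ?_)) <;> ring
    exact le_of_mul_le_mul_left h1 (by positivity)
  have hfinal : Cs * b ≤ 1 / 4 := by
    have h1 : (J : ℝ) * (4 * (Cs * b)) ^ 2 ≤ J * 1 := by
      have h2 : (J : ℝ) * (4 * (Cs * b)) ^ 2 = 16 * Cs ^ 2 * ((J : ℝ) * b ^ 2) := by ring
      rw [h2, mul_one]
      refine le_trans (mul_le_mul_of_nonneg_left hbb (by positivity)) ?_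
      refine le_trans (le_of_eq ?_) hJ.le
      ring
    have h3 := le_of_mul_le_mul_left h1 hJpos
    have h4 : 4 * (Cs * b) ≤ 1 := by
      by_contra h
      push Not at h
      nlinarith
    linarith
  filter_upwards [hres] with y hy hyB
  have h1 := hy hyB
  have h2 : Cs * (R⁻¹ ^ G.Q * ∫ z in G.B x R, (max (v z - κ J) 0) ^ 2) ≤
      (M - κ J) ^ 2 * (1 / 4) := by
    calc Cs * (R⁻¹ ^ G.Q * ∫ z in G.B x R, (max (v z - κ J) 0) ^ 2)
        ≤ Cs * (R⁻¹ ^ G.Q * ((M - κ J) ^ 2 * a J)) := by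
          refine mul_le_mul_of_nonneg_left ?_ hCs.le
          exact mul_le_mul_of_nonneg_left hI (by positivity)
      _ = (M - κ J) ^ 2 * (Cs * b) := by rw [hb]; ring
      _ ≤ (M - κ J) ^ 2 * (1 / 4) := mul_le_mul_of_nonneg_left hfinal (by positivity)
  have h3 : (max (v y - κ J) 0) ^ 2 ≤ ((M - κ J) / 2) ^ 2 := by
    refine (h1.trans h2).trans (le_of_eq ?_)
    ring
  have h4 : max (v y - κ J) 0 ≤ (M - κ J) / 2 :=
    le_of_sq_le_sq h3 (by linarith)
  have h5 : v y - κ J ≤ (M - κ J) / 2 := (le_max_left _ _).trans h4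
  have h6 : M - (1 / 2) ^ (J + 1) * (M - k) = κ J + (M - κ J) / 2 := by
    simp only [hκ, pow_succ]
    ring
  rw [h6]
  linarith

end Pool.Agent.CG
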