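import Pool.Agent.CG.B.Trans

/-!
# CG-C-P0 (helper66): Poincaré inequality for functions with a large zero set

PLAN.
* `trans_in`: for `g` with `ell g < 2 R`: `∫_{B x R} |f(y g) - f y| ≤ 2 R ∫_{B x (3R)} ‖F‖`.  Take `ell g < l < 2 R`; cut-off
  `η ∈ Test (B x (4R))`, `η = 1` on a neighbourhood of the compact `{di x · ≤ R + l}` (`exists_test_eq_one`), `f₁ = η f` is in
  `HW G 1 univ` (`HW.mul_smooth`, `HW.extend`), equal to `f` (and gradient `F`) on `B x (R + l)`; `HW.trans` with `q = 1`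
  (`y ∈ B x R → y g ∈ B x (R + l)`).
* `zero_poincare`: Tonelli: `∫_{y ∈ B x R} ∫_{z ∈ Z} |f y - f z| ≤ ∫_{g ∈ B 0 (2R)} ∫_{y ∈ B x R} |f(y g) - f y|` (for fixed `y` substitute `z = y g`,
  `G.mp_left y`; `y, z ∈ B x R` gives `ell g = di y z < 2 R`), left side `= |Z| ∫_{B x R} |f|`.  Use `∫⁻` and a strongly measurable
  representative of `f` on the compact `{di x · ≤ 3 R} ⊆ B x (4 R)`.
-/

set_option autoImplicit false

namespace Pool.Agent.CG

open MeasureTheory Set Filter Topology
open scoped ContDiff ENNReal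

variable {N m : ℕ}

private theorem p0_B_mono {G : Carnot N m} {r r' : ℝ} (h : r ≤ r') (x : Pt N) :
    G.B x r ⊆ G.B x r' :=
  fun _ hy => lt_of_lt_of_le (show G.di x _ < r from hy) h

/-- local integrability implies measurability on the ball -/
private theorem p0_aesm {G : Carnot N m} {x : Pt N} {R : ℝ} {f : Pt N → ℝ}
    (h : LqLoc 1 (G.B x R) f) : AEStronglyMeasurable f (volume.restrict (G.B x R)) := by
  have hU : G.B x R = ⋃ n : ℕ, {y | G.di x y ≤ R - 1 / ((n : ℝ) + 1)} := by
    ext y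
    rw [mem_iUnion]
    constructor
    · intro hy
      have hy' : 0 < R - G.di x y := sub_pos.2 hy
      obtain ⟨n, hn⟩ := exists_nat_one_div_lt hy'
      refine ⟨n, ?_⟩
      change G.di x y ≤ R - 1 / ((n : ℝ) + 1)
      linarith
    · rintro ⟨n, hn⟩
      have hn' : G.di x y ≤ R - 1 / ((n : ℝ) + 1) := hn
      have : (0 : ℝ) < 1 / ((n : ℝ) + 1) := by positivity
      change G.di x y < R
      linarith
  rw [hU, aestronglyMeasurable_iUnion_iff]
  intro n
  refine (h _ (G.isCompact_cB x _) ?_).aestronglyMeasurable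
  rw [hU]
  exact subset_iUnion (fun n : ℕ => {y | G.di x y ≤ R - 1 / ((n : ℝ) + 1)}) n

private theorem p0_di_mul {G : Carnot N m} (y g : Pt N) : G.di y (G.mul y g) = G.ell g := by
  rw [Carnot.di, G.neg_mul_cancel]

private theorem p0_di_zero {G : Carnot N m} (g : Pt N) : G.di 0 g = G.ell g := by
  rw [Carnot.di, neg_zero, G.zero_mul]

theorem trans_in {G : Carnot N m} {x : Pt N} {R : ℝ} (hR : 0 < R) {f : Pt N → ℝ} {F : Pt N → Hv m}
    (hf : HW G 1 (G.B x (4 * R)) f F) {g : Pt N} (hg : G.ell g < 2 * R) :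
    ∫⁻ y in G.B x R, ENNReal.ofReal |f (G.mul y g) - f y| ≤
      ENNReal.ofReal (2 * R) * ∫⁻ y in G.B x (3 * R), ENNReal.ofReal ‖F y‖ := by
  obtain ⟨l, hgl, hl⟩ := exists_between hg
  have hK : IsCompact {y | G.di x y ≤ R + l} := G.isCompact_cB x (R + l)
  have hKsub : {y | G.di x y ≤ R + l} ⊆ G.B x (4 * R) := by
    intro y hy
    have hy' : G.di x y ≤ R + l := hy
    change G.di x y < 4 * R
    linarith
  obtain ⟨η, hη, -, -, U, hU, hKU, hηU⟩ := exists_test_eq_one hK (G.isOpen_B x (4 * R)) hKsub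
  have h1 := hf.mul_smooth le_rfl hη.smooth
  have hη0 : ∀ y, y ∉ tsupport η → η y = 0 := fun y hy => image_eq_zero_of_notMem_tsupport hy
  have h2 := h1.extend (G.isOpen_B x (4 * R)) le_rfl hη.cpt hη.sub
    (fun y hy => by rw [hη0 y hy, zero_mul])
    (fun y hy => by rw [hη0 y hy, G.grad_eq_zero hy]; simp)
  have h3 := h2.trans le_rfl ENNReal.one_ne_top x g (R := R) hgl
  rw [eLpNorm_one_eq_lintegral_enorm, eLpNorm_one_eq_lintegral_enorm] at h3
  have hmeas : ∀ r, MeasurableSet (G.B x r) := fun r => (G.isOpen_B x r).measurableSet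
  have hsubU : ∀ y ∈ G.B x (R + l), y ∈ U := fun y hy => hKU (le_of_lt (show G.di x y < R + l from hy))
  have e1 : ∫⁻ y in G.B x R, ENNReal.ofReal |f (G.mul y g) - f y| =
      ∫⁻ y in G.B x R, ‖η (G.mul y g) * f (G.mul y g) - η y * f y‖ₑ := by
    refine setLIntegral_congr_fun (hmeas R) fun y hy => ?_
    have hy' : G.di x y < R := hy
    have hl0 : 0 < l := lt_of_le_of_lt (G.ell_nonneg g) hgl
    have g1 : G.mul y g ∈ G.B x (R + l) := by
      change G.di x (G.mul y g) < R + l
      have := G.di_triangle x y (G.mul y g)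
      rw [p0_di_mul] at this
      linarith
    have g2 : y ∈ G.B x (R + l) := by
      change G.di x y < R + l
      linarith
    rw [hηU _ (hsubU _ g1), hηU _ (hsubU _ g2), one_mul, one_mul, Real.enorm_eq_ofReal_abs]
  have e2 : ∫⁻ y in G.B x (R + l), ‖η y • F y + f y • G.grad η y‖ₑ =
      ∫⁻ y in G.B x (R + l), ENNReal.ofReal ‖F y‖ := by
    refine setLIntegral_congr_fun (hmeas (R + l)) fun y hy => ?_
    have g1 : G.grad η y = 0 := by
      have g2 : η =ᶠ[𝓝 y] fun _ => (1 : ℝ) := by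
        filter_upwards [hU.mem_nhds (hsubU y hy)] with z hz
        exact hηU z hz
      rw [G.grad_congr_nhds g2, G.grad_const]
    rw [hηU y (hsubU y hy), g1, one_smul, smul_zero, add_zero, ofReal_norm]
  rw [e1]
  refine h3.trans ?_
  rw [e2]
  refine mul_le_mul' (ENNReal.ofReal_le_ofReal hl.le) (lintegral_mono_set ?_)
  exact p0_B_mono (by linarith) x

theorem zero_poincare {G : Carnot N m} {x : Pt N} {R : ℝ} (hR : 0 < R) {f : Pt N → ℝ} {F : Pt N → Hv m}
    (hf : HW G 1 (G.B x (4 * R)) f F) {Z : Set (Pt N)} (hZ : Z ⊆ G.B x R) (hZm : NullMeasurableSet Z volume)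
    (h0 : ∀ y ∈ Z, f y = 0) :
    volume.real Z * ∫ y in G.B x R, |f y| ≤
      2 * R * volume.real (G.B 0 (2 * R)) * ∫ y in G.B x (3 * R), ‖F y‖ := by
  have hmeas : ∀ y r, MeasurableSet (G.B y r) := fun y r => (G.isOpen_B y r).measurableSet
  have haesm := p0_aesm hf.lq
  set f' : Pt N → ℝ := haesm.mk f with hf'def
  have hf'm : Measurable f' := haesm.stronglyMeasurable_mk.measurable
  have hff' : ∀ᵐ y, y ∈ G.B x (4 * R) → f y = f' y :=
    (ae_restrict_iff' (hmeas x (4 * R))).1 haesm.ae_eq_mk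
  have hf' : HW G 1 (G.B x (4 * R)) f' F :=
    hf.congr (G.isOpen_B x (4 * R)) hff' (Eventually.of_forall fun _ _ => rfl)
  have hZ4 : Z ⊆ G.B x (4 * R) := hZ.trans (p0_B_mono (by linarith) x)
  have h0' : ∀ᵐ z ∂(volume.restrict Z), f' z = 0 := by
    rw [ae_restrict_iff'₀ hZm]
    filter_upwards [hff'] with z hz hzZ
    rw [← hz (hZ4 hzZ)]
    exact h0 z hzZ
  set IF : ℝ≥0∞ := ∫⁻ y in G.B x (3 * R), ENNReal.ofReal ‖F y‖ with hIF
  have hA : ∫⁻ y in G.B x R, ∫⁻ z in Z, ENNReal.ofReal |f' z - f' y| =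
      volume Z * ∫⁻ y in G.B x R, ENNReal.ofReal |f' y| := by
    have e1 : ∀ y, ∫⁻ z in Z, ENNReal.ofReal |f' z - f' y| = volume Z * ENNReal.ofReal |f' y| := by
      intro y
      have e2 : ∫⁻ z in Z, ENNReal.ofReal |f' z - f' y| = ∫⁻ _z in Z, ENNReal.ofReal |f' y| := by
        refine lintegral_congr_ae ?_
        filter_upwards [h0'] with z hz
        rw [hz, zero_sub, abs_neg]
      rw [e2, setLIntegral_const, mul_comm]
    simp only [e1]
    have hm0 : Measurable fun y => ENNReal.ofReal |f' y| :=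
      ENNReal.measurable_ofReal.comp hf'm.norm
    rw [lintegral_const_mul _ hm0]
  have hB : ∀ y ∈ G.B x R, ∫⁻ z in Z, ENNReal.ofReal |f' z - f' y| ≤
      ∫⁻ g in G.B 0 (2 * R), ENNReal.ofReal |f' (G.mul y g) - f' y| := by
    intro y hy
    have hy' : G.di x y < R := hy
    have hsub : Z ⊆ G.B y (2 * R) := by
      intro z hz
      have hz' : G.di x z < R := hZ hz
      change G.di y z < 2 * R
      have := G.di_triangle y x z
      rw [G.di_comm y x] at this
      linarith
    refine (lintegral_mono_set hsub).trans ?_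
    have hm : Measurable fun z => ENNReal.ofReal |f' z - f' y| :=
      ENNReal.measurable_ofReal.comp ((hf'm.sub_const (f' y)).norm)
    have e1 := (G.mp_left y).setLIntegral_comp_preimage (hmeas y (2 * R)) hm
    have e2 : (fun g => G.mul y g) ⁻¹' G.B y (2 * R) = G.B 0 (2 * R) := by
      have := G.preimage_left_B y 0 (2 * R)
      rw [G.mul_zero] at this
      exact this
    rw [e2] at e1
    rw [← e1]
  have hC : ∫⁻ y in G.B x R, ∫⁻ g in G.B 0 (2 * R), ENNReal.ofReal |f' (G.mul y g) - f' y| ≤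
      volume (G.B 0 (2 * R)) * (ENNReal.ofReal (2 * R) * IF) := by
    have hm : Measurable (Function.uncurry fun y g => ENNReal.ofReal |f' (G.mul y g) - f' y|) := by
      have hm1 : Measurable fun q : Pt N × Pt N => f' (G.mul q.1 q.2) - f' q.1 :=
        (hf'm.comp G.continuous_mul.measurable).sub (hf'm.comp measurable_fst)
      exact ENNReal.measurable_ofReal.comp hm1.norm
    rw [lintegral_lintegral_swap hm.aemeasurable]
    calc _ ≤ ∫⁻ _g in G.B 0 (2 * R), ENNReal.ofReal (2 * R) * IF := by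
          refine setLIntegral_mono' (hmeas 0 (2 * R)) fun g hg => ?_
          have hg' : G.di 0 g < 2 * R := hg
          rw [p0_di_zero] at hg'
          exact trans_in hR hf' hg'
      _ = _ := by rw [setLIntegral_const, mul_comm]
  have hE : volume Z * ∫⁻ y in G.B x R, ENNReal.ofReal |f' y| ≤
      volume (G.B 0 (2 * R)) * (ENNReal.ofReal (2 * R) * IF) := by
    rw [← hA]
    exact (setLIntegral_mono' (hmeas x R) hB).trans hC
  -- back to real integrals
  have hF3 : IntegrableOn F (G.B x (3 * R)) := by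
    have e1 : IntegrableOn F {y | G.di x y ≤ 3 * R} := by
      refine hf.lqg.integrableOn le_rfl (G.isCompact_cB x (3 * R)) ?_
      intro y hy
      have hy' : G.di x y ≤ 3 * R := hy
      change G.di x y < 4 * R
      linarith
    exact e1.mono_set fun y hy => le_of_lt (show G.di x y < 3 * R from hy)
  have hIFfin : IF ≠ ⊤ := by
    have e1 := hF3.norm
    have e2 : IF = ∫⁻ y in G.B x (3 * R), ‖F y‖ₑ := by
      rw [hIF]
      refine lintegral_congr fun y => ?_
      rw [ofReal_norm]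
    rw [e2]
    exact hF3.hasFiniteIntegral.ne
  have hr2 : ∫ y in G.B x (3 * R), ‖F y‖ = IF.toReal := by
    rw [integral_eq_lintegral_of_nonneg_ae (Eventually.of_forall fun y => norm_nonneg _)
      hF3.norm.aestronglyMeasurable]
  have hsubR : G.B x R ⊆ G.B x (4 * R) := p0_B_mono (by linarith) x
  have hr1 : ∫ y in G.B x R, |f y| = (∫⁻ y in G.B x R, ENNReal.ofReal |f' y|).toReal := by
    have e1 : ∫ y in G.B x R, |f y| = ∫ y in G.B x R, |f' y| := by
      refine integral_congr_ae ?_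
      rw [Filter.EventuallyEq, ae_restrict_iff' (hmeas x R)]
      filter_upwards [hff'] with y hy hyR
      rw [hy (hsubR hyR)]
    rw [e1, integral_eq_lintegral_of_nonneg_ae (Eventually.of_forall fun y => abs_nonneg _)
      hf'm.norm.aestronglyMeasurable]
  rw [hr1, hr2]
  have hfin : volume (G.B 0 (2 * R)) * (ENNReal.ofReal (2 * R) * IF) ≠ ⊤ :=
    ENNReal.mul_ne_top (G.vol_B_lt_top 0 (2 * R)).ne (ENNReal.mul_ne_top ENNReal.ofReal_ne_top hIFfin)
  have h1 := ENNReal.toReal_mono hfin hE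
  rw [ENNReal.toReal_mul, ENNReal.toReal_mul, ENNReal.toReal_mul,
    ENNReal.toReal_ofReal (by positivity)] at h1
  rw [measureReal_def, measureReal_def]
  refine h1.trans (le_of_eq ?_)
  ring

end Pool.Agent.CG
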