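import Pool.Agent.CG.C.Def
import Pool.Agent.CG.C.P0
import Pool.Agent.CG.B.Chain
import Pool.Agent.CG.A.Cut

/-!
# CG-C-OscStep (helper66): measure decay between levels

PLAN.  `f = min (v - l)_+ (l' - l)` (`HW.posPart`, `minConst`-type: `min t c = t - (t - c)_+`, so its gradient is `1_{l < v < l'} V` up to
the null set where `v = l'` and `V ≠ 0`; `HW.posPart` twice and `HW.sub` give `F = 1_{l<v} V - 1_{l'-l < (v-l)_+} 1_{l<v} V`, i.e. `V` on `{l < v ≤ l'}`),
exponent `1` (`HW.mono_exp`).  `Z = B x R ∩ {v ≤ k}`, `f = 0` on `Z` (`k ≤ l`).  `zero_poincare`: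
`|Z| (l' - l) |B x R ∩ {v > l'}| ≤ |Z| ∫_{B x R} |f| ≤ 2 R |B 0 (2R)| ∫_{B x (3R)} 1_{l<v≤l'} ‖V‖`
`≤ 2 R |B 0 (2R)| |B x (3R) ∩ {l < v ≤ l'}|^{1/2} (∫_{B x (3R)} 1_{v>l} ‖V‖²)^{1/2}` (Cauchy-Schwarz).  Cut-off `η` of `G.exists_cutoff` (`3R < 4R`),
`DG.cacc` at level `l ≥ k0`: `∫_{B x (3R)} 1_{v>l} ‖V‖² ≤ C1 ∫ (v-l)_+² ‖grad η‖² ≤ C1 (C/R)² (M - l)² |B x (4R)|` (`v ≤ M` a.e.; `C1` replaced by `max C1 0`).
With `θ |B x R| ≤ |Z|` and `G.vol_B`, `|B x (4R)| = 4^Q |B x R|` etc.; square.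
-/

set_option autoImplicit false

namespace Pool.Agent.CG

open MeasureTheory Set Filter Topology
open scoped ContDiff ENNReal

variable {N m : ℕ}

/-- Cauchy-Schwarz on the set where a nonnegative function does not vanish. -/
private theorem ol_cs {α : Type*} {mα : MeasurableSpace α} {μ : Measure α} {g : α → ℝ} (hg : MemLp g 2 μ)
    (h0 : ∀ x, 0 ≤ g x) {D : Set α} (hD : μ D ≠ ⊤) (hz : ∀ x, x ∉ D → g x = 0) :
    (∫ x, g x ∂μ) ^ 2 ≤ μ.real D * ∫ x, g x ^ 2 ∂μ := by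
  classical
  set D' := toMeasurable μ D with hD'
  have hm : MeasurableSet D' := measurableSet_toMeasurable μ D
  have hD1 : μ D' = μ D := measure_toMeasurable D
  have hsub : D ⊆ D' := subset_toMeasurable μ D
  have hr : μ.real D' = μ.real D := by rw [Measure.real, Measure.real, hD1]
  have h2 : ENNReal.ofReal 2 = 2 := by simp
  have hf : MemLp (D'.indicator fun _ => (1 : ℝ)) (ENNReal.ofReal 2) μ :=
    memLp_indicator_const _ hm 1 (Or.inr (by rw [hD1]; exact hD))
  have h1 := integral_mul_le_Lp_mul_Lq_of_nonneg (μ := μ) (p := 2) (q := 2)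
    ((Real.holderConjugate_iff).2 ⟨by norm_num, by norm_num⟩)
    (f := D'.indicator fun _ => (1 : ℝ)) (g := g)
    (Eventually.of_forall fun x => indicator_nonneg (fun _ _ => zero_le_one) x)
    (Eventually.of_forall h0) hf (by rw [h2]; exact hg)
  have e1 : ∀ x, (D'.indicator fun _ => (1 : ℝ)) x * g x = g x := by
    intro x
    by_cases hx : x ∈ D'
    · rw [indicator_of_mem hx, one_mul]
    · rw [indicator_of_notMem hx, hz x (fun h => hx (hsub h)), zero_mul]
  have e2 : ∀ x, ((D'.indicator fun _ => (1 : ℝ)) x) ^ (2 : ℝ) = (D'.indicator fun _ => (1 : ℝ)) x := by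
    intro x
    by_cases hx : x ∈ D'
    · rw [indicator_of_mem hx, Real.one_rpow]
    · rw [indicator_of_notMem hx, Real.zero_rpow (by norm_num)]
  have e3 : ∀ x, g x ^ (2 : ℝ) = g x ^ 2 := fun x => Real.rpow_two _
  simp only [e1, e2, e3] at h1
  rw [integral_indicator_const _ hm, smul_eq_mul, mul_one, hr] at h1
  have hI : 0 ≤ ∫ x, g x ^ 2 ∂μ := integral_nonneg fun x => sq_nonneg _
  have hI1 : 0 ≤ ∫ x, g x ∂μ := integral_nonneg h0
  have h3 := pow_le_pow_left₀ hI1 h1 2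
  rw [mul_pow, ← Real.sqrt_eq_rpow, ← Real.sqrt_eq_rpow, Real.sq_sqrt measureReal_nonneg,
    Real.sq_sqrt hI] at h3
  exact h3

private theorem ol_vol (G : Carnot N m) (x : Pt N) {r : ℝ} (hr : 0 < r) :
    volume.real (G.B x r) = r ^ G.Q * volume.real (G.B 0 1) := by
  rw [Measure.real, Measure.real, G.vol_B x hr, ENNReal.toReal_mul, ENNReal.toReal_ofReal (by positivity)]

/-- The Caccioppoli inequality for a function bounded by `M`. -/
private theorem ol_cacc (G : Carnot N m) {C0 : ℝ}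
    (hcut : ∀ (x : Pt N) (r R : ℝ), 0 < r → r < R →
    ∃ η : Pt N → ℝ, Test (G.B x R) η ∧ (∀ y, 0 ≤ η y) ∧ (∀ y, η y ≤ 1) ∧
      (∀ y ∈ G.B x r, η y = 1) ∧ ∀ y, ‖G.grad η y‖ ≤ C0 / (R - r)) {C1 : ℝ}
    {x : Pt N} {R : ℝ} (hR : 0 < R) {v : Pt N → ℝ} {V : Pt N → Hv m} {k0 M : ℝ}
    (hv : DG G (G.B x (4 * R)) v V k0 C1) (hM : ∀ᵐ y, y ∈ G.B x (4 * R) → v y ≤ M) {l : ℝ} (hl : k0 ≤ l)
    (hlM : l ≤ M) :
    ∫ y in G.B x (3 * R), (if l < v y then ‖V y‖ ^ 2 else 0) ≤
      max C1 0 * ((M - l) ^ 2 * (C0 / R) ^ 2 * volume.real (G.B x (4 * R))) := by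
  obtain ⟨η, hη, hη0, hη1, hη2, hη3⟩ := hcut x (3 * R) (4 * R) (by linarith) (by linarith)
  have h43 : 4 * R - 3 * R = R := by ring
  rw [h43] at hη3
  have hw := (hv.toHW.posPart (G.isOpen_B x (4 * R)) (by norm_num) l)
  set W : Pt N → Hv m := fun y => if l < v y then V y else 0 with hW
  have hWn : ∀ y, ‖W y‖ ^ 2 = if l < v y then ‖V y‖ ^ 2 else 0 := by
    intro y
    rw [hW]
    by_cases h : l < v y
    · simp [h]
    · simp [h]
  have hint : Integrable (fun y => η y ^ 2 * (if l < v y then ‖V y‖ ^ 2 else 0)) := by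
    have h1 : LqLoc 2 (G.B x (4 * R)) (fun y => η y • W y) := hw.lqg.bdd_smul hη.continuous.continuousOn
    have h2 := h1.memLp_of_zero (K := tsupport η) hη.cpt hη.sub
      (fun y hy => by rw [image_eq_zero_of_notMem_tsupport hy, zero_smul])
    have h3 := h2.integrable_norm_pow (p := 2) two_ne_zero
    refine h3.congr (Eventually.of_forall fun y => ?_)
    simp only
    rw [norm_smul, mul_pow, Real.norm_eq_abs, sq_abs, hWn]
  have h1 : ∫ y in G.B x (3 * R), (if l < v y then ‖V y‖ ^ 2 else 0) =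
      ∫ y in G.B x (3 * R), η y ^ 2 * (if l < v y then ‖V y‖ ^ 2 else 0) := by
    refine setIntegral_congr_fun (G.isOpen_B x (3 * R)).measurableSet fun y hy => ?_
    rw [hη2 y hy, one_pow, one_mul]
  rw [h1]
  refine (setIntegral_le_integral hint (Eventually.of_forall fun y => ?_)).trans ?_
  · refine mul_nonneg (sq_nonneg _) ?_
    split_ifs
    · positivity
    · exact le_rfl
  refine (hv.cacc l hl η hη).trans ?_
  have hI0 : 0 ≤ ∫ y, (max (v y - l) 0) ^ 2 * ‖G.grad η y‖ ^ 2 := integral_nonneg fun y => by positivity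
  refine (mul_le_mul_of_nonneg_right (le_max_left C1 0) hI0).trans ?_
  refine mul_le_mul_of_nonneg_left ?_ (le_max_right _ _)
  have hB := (G.isOpen_B x (4 * R)).measurableSet
  have h5 : ∫ y, (G.B x (4 * R)).indicator (fun _ => (M - l) ^ 2 * (C0 / R) ^ 2) y =
      (M - l) ^ 2 * (C0 / R) ^ 2 * volume.real (G.B x (4 * R)) := by
    rw [integral_indicator_const _ hB, smul_eq_mul, mul_comm]
  rw [← h5]
  refine integral_mono_of_nonneg (Eventually.of_forall fun y => by positivity) ?_ ?_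
  · exact (integrable_indicator_iff hB).2 (integrableOn_const (G.vol_B_lt_top x _).ne)
  · filter_upwards [hM] with y hy
    by_cases hyB : y ∈ G.B x (4 * R)
    · rw [indicator_of_mem hyB]
      have h6 : max (v y - l) 0 ≤ M - l := max_le (by linarith [hy hyB]) (by linarith)
      exact mul_le_mul (pow_le_pow_left₀ (le_max_right _ _) h6 2)
        (pow_le_pow_left₀ (norm_nonneg _) (hη3 y) 2) (by positivity) (by positivity)
    · rw [indicator_of_notMem hyB, hη.grad_eq_zero hyB]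
      simp

theorem osc_level (G : Carnot N m) (C1 θ : ℝ) (hθ : 0 < θ) : ∃ C : ℝ, 0 < C ∧
    ∀ (x : Pt N) (R : ℝ), 0 < R → ∀ (v : Pt N → ℝ) (V : Pt N → Hv m) (k0 k M : ℝ),
    DG G (G.B x (4 * R)) v V k0 C1 → k0 ≤ k → k < M →
    (∀ᵐ y, y ∈ G.B x (4 * R) → v y ≤ M) →
    θ * volume.real (G.B x R) ≤ volume.real (G.B x R ∩ {y | v y ≤ k}) →
    ∀ l l' : ℝ, k ≤ l → l < l' → l' < M →
    ((l' - l) * volume.real (G.B x R ∩ {y | l' < v y})) ^ 2 ≤
      C * (M - l) ^ 2 * volume.real (G.B x R) * volume.real (G.B x (3 * R) ∩ {y | l < v y ∧ v y ≤ l'}) := by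
  obtain ⟨C0, hC0, hcut⟩ := G.exists_cutoff
  refine ⟨4 * (2 ^ G.Q) ^ 2 * 4 ^ G.Q * max C1 0 * C0 ^ 2 / θ ^ 2 + 1, by positivity, ?_⟩
  intro x R hR v V k0 k M hv hk0 hkM hM hZ l l' hkl hll hlM
  have hO : IsOpen (G.B x (4 * R)) := G.isOpen_B x (4 * R)
  have hB1 : MeasurableSet (G.B x R) := (G.isOpen_B x R).measurableSet
  have hB3 : MeasurableSet (G.B x (3 * R)) := (G.isOpen_B x (3 * R)).measurableSet
  have hw1 := hv.toHW.posPart hO (by norm_num) l
  have hw2 := hw1.posPart hO (by norm_num) (l' - l)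
  have hf := hw1.sub (by norm_num) hw2
  have hf1 := hf.mono_exp (q' := 1) (by norm_num)
  -- the values of `f` and `F`
  set f : Pt N → ℝ := fun y => max (v y - l) 0 - max (max (v y - l) 0 - (l' - l)) 0 with hfdef
  set W : Pt N → Hv m := fun y => if l < v y then V y else 0 with hW
  set F : Pt N → Hv m := fun y => W y - (if l' - l < max (v y - l) 0 then W y else 0) with hFdef
  have hF1 : ∀ y, ‖F y‖ ≤ ‖W y‖ := by
    intro y
    rw [hFdef]
    simp only
    split_ifs with h1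
    · rw [sub_self, norm_zero]; exact norm_nonneg _
    · rw [sub_zero]
  have hF2 : ∀ y, y ∉ {y | l < v y ∧ v y ≤ l'} → F y = 0 := by
    intro y hy
    rw [hFdef]
    simp only
    by_cases h1 : l < v y
    · have h2 : l' < v y := by
        by_contra h3
        exact hy ⟨h1, not_lt.1 h3⟩
      have h3 : l' - l < max (v y - l) 0 := lt_of_lt_of_le (by linarith) (le_max_left _ _)
      rw [if_pos h3, sub_self]
    · have h2 : W y = 0 := by
        rw [hW]
        simp [h1]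
      rw [h2]
      simp
  have hWn : ∀ y, ‖W y‖ ^ 2 = if l < v y then ‖V y‖ ^ 2 else 0 := by
    intro y
    rw [hW]
    by_cases h : l < v y
    · simp [h]
    · simp [h]
  have hfz : ∀ y, v y ≤ k → f y = 0 := by
    intro y hy
    rw [hfdef]
    simp only
    rw [max_eq_right (show v y - l ≤ 0 by linarith), max_eq_right (show (0 : ℝ) - (l' - l) ≤ 0 by linarith),
      sub_zero]
  have hfl : ∀ y, l' < v y → f y = l' - l := by
    intro y hy
    rw [hfdef]
    simp only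
    rw [max_eq_left (show 0 ≤ v y - l by linarith), max_eq_left (show 0 ≤ v y - l - (l' - l) by linarith)]
    ring
  -- integrability on the balls
  have hK3 : IsCompact {y | G.di x y ≤ 3 * R} := G.isCompact_cB x (3 * R)
  have hK3s : {y | G.di x y ≤ 3 * R} ⊆ G.B x (4 * R) := by
    intro y hy
    have hy' : G.di x y ≤ 3 * R := hy
    rw [G.mem_B]
    linarith
  have h3K : G.B x (3 * R) ⊆ {y | G.di x y ≤ 3 * R} := fun y hy => le_of_lt (G.mem_B.1 hy)
  have h1K : G.B x R ⊆ {y | G.di x y ≤ 3 * R} := by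
    intro y hy
    rw [G.mem_B] at hy
    show G.di x y ≤ 3 * R
    linarith
  have hmr3 : (volume.restrict (G.B x (3 * R)) : Measure (Pt N)) ≤
    volume.restrict {y | G.di x y ≤ 3 * R} := Measure.restrict_mono h3K le_rfl
  have hmr1 : (volume.restrict (G.B x R) : Measure (Pt N)) ≤
    volume.restrict {y | G.di x y ≤ 3 * R} := Measure.restrict_mono h1K le_rfl
  have hvm : AEMeasurable v (volume.restrict (G.B x R)) :=
    ((hv.lq _ hK3 hK3s).aestronglyMeasurable.mono_measure hmr1).aemeasurable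
  have hF3 : MemLp F 2 (volume.restrict (G.B x (3 * R))) := (hf.lqg _ hK3 hK3s).mono_measure hmr3
  have hW3 : MemLp W 2 (volume.restrict (G.B x (3 * R))) := (hw1.lqg _ hK3 hK3s).mono_measure hmr3
  have hf3 : Integrable f (volume.restrict (G.B x R)) :=
    (hf1.lq.integrableOn le_rfl hK3 hK3s).mono_set h1K
  -- Poincare
  have hZm : NullMeasurableSet (G.B x R ∩ {y | v y ≤ k}) volume := by
    rw [inter_comm]
    rw [← nullMeasurableSet_restrict hB1.nullMeasurableSet]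
    exact hvm.nullMeasurable measurableSet_Iic
  have hP := zero_poincare hR hf1 inter_subset_left hZm (fun y hy => hfz y hy.2)
  -- Chebyshev
  have hCh : (l' - l) * volume.real (G.B x R ∩ {y | l' < v y}) ≤ ∫ y in G.B x R, |f y| := by
    have h1 := mul_meas_ge_le_integral_of_nonneg (μ := volume.restrict (G.B x R)) (f := fun y => |f y|)
      (Eventually.of_forall fun y => abs_nonneg _) hf3.abs (l' - l)
    refine le_trans (mul_le_mul_of_nonneg_left ?_ (by linarith)) h1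
    rw [measureReal_restrict_apply' hB1]
    refine measureReal_mono ?_ ?_
    · intro y hy
      refine ⟨?_, hy.1⟩
      show l' - l ≤ |f y|
      rw [hfl y hy.2]
      exact le_abs_self _
    · exact ((measure_mono inter_subset_right).trans_lt (G.vol_B_lt_top x R)).ne
  -- Cauchy-Schwarz
  have hfin3 : (volume.restrict (G.B x (3 * R)) : Measure (Pt N)) {y | l < v y ∧ v y ≤ l'} ≠ ⊤ := by
    rw [Measure.restrict_apply' hB3]
    exact ((measure_mono inter_subset_right).trans_lt (G.vol_B_lt_top x (3 * R))).ne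
  have hCS := ol_cs (hF3.norm) (fun y => norm_nonneg _) hfin3 (fun y hy => by rw [hF2 y hy, norm_zero])
  rw [measureReal_restrict_apply' hB3, inter_comm] at hCS
  have hcc := ol_cacc G hcut hR hv hM (l := l) (hk0.trans hkl) (by linarith)
  have hFW : ∫ y in G.B x (3 * R), ‖F y‖ ^ 2 ≤ ∫ y in G.B x (3 * R), (if l < v y then ‖V y‖ ^ 2 else 0) := by
    have h1 := hW3.integrable_norm_pow (p := 2) two_ne_zero
    have h2 : ∫ y in G.B x (3 * R), ‖F y‖ ^ 2 ≤ ∫ y in G.B x (3 * R), ‖W y‖ ^ 2 :=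
      integral_mono_of_nonneg (Eventually.of_forall fun y => by positivity) h1
        (Eventually.of_forall fun y => pow_le_pow_left₀ (norm_nonneg _) (hF1 y) 2)
    simp only [hWn] at h2
    exact h2
  -- volumes
  have hv0 : 0 < volume.real (G.B x R) := by
    rw [Measure.real]
    exact ENNReal.toReal_pos (G.vol_B_pos x hR).ne' (G.vol_B_lt_top x R).ne
  have hvol2 : volume.real (G.B 0 (2 * R)) = 2 ^ G.Q * volume.real (G.B x R) := by
    rw [ol_vol G 0 (by linarith), ol_vol G x hR, mul_pow, mul_assoc]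
  have hvol4 : volume.real (G.B x (4 * R)) = 4 ^ G.Q * volume.real (G.B x R) := by
    rw [ol_vol G x (by linarith), ol_vol G x hR, mul_pow, mul_assoc]
  rw [hvol2] at hP
  rw [hvol4] at hcc
  -- assembly
  set a := volume.real (G.B x R ∩ {y | l' < v y}) with ha
  set b := volume.real (G.B x R) with hb
  set d := volume.real (G.B x (3 * R) ∩ {y | l < v y ∧ v y ≤ l'}) with hd
  set I := ∫ y in G.B x (3 * R), ‖F y‖ with hI
  have ha0 : 0 ≤ a := measureReal_nonneg
  have hd0 : 0 ≤ d := measureReal_nonneg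
  have hI0 : 0 ≤ I := integral_nonneg fun y => norm_nonneg _
  have hla : 0 ≤ (l' - l) * a := mul_nonneg (by linarith) ha0
  have h1 : θ * ((l' - l) * a) ≤ 2 * R * 2 ^ G.Q * I := by
    have h2 : b * (θ * ((l' - l) * a)) ≤ b * (2 * R * 2 ^ G.Q * I) := by
      calc b * (θ * ((l' - l) * a)) = (θ * b) * ((l' - l) * a) := by ring
        _ ≤ volume.real (G.B x R ∩ {y | v y ≤ k}) * ((l' - l) * a) := mul_le_mul_of_nonneg_right hZ hla
        _ ≤ volume.real (G.B x R ∩ {y | v y ≤ k}) * ∫ y in G.B x R, |f y| :=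
          mul_le_mul_of_nonneg_left hCh measureReal_nonneg
        _ ≤ 2 * R * (2 ^ G.Q * b) * I := hP
        _ = b * (2 * R * 2 ^ G.Q * I) := by ring
    exact le_of_mul_le_mul_left h2 hv0
  have h2 : (θ * ((l' - l) * a)) ^ 2 ≤ (2 * R * 2 ^ G.Q) ^ 2 * I ^ 2 := by
    rw [← mul_pow]
    exact pow_le_pow_left₀ (mul_nonneg hθ.le hla) h1 2
  have h3 : I ^ 2 ≤ d * (max C1 0 * ((M - l) ^ 2 * (C0 / R) ^ 2 * (4 ^ G.Q * b))) :=
    hCS.trans (mul_le_mul_of_nonneg_left (hFW.trans hcc) hd0)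
  have h4 : (θ * ((l' - l) * a)) ^ 2 ≤
      (2 * R * 2 ^ G.Q) ^ 2 * (d * (max C1 0 * ((M - l) ^ 2 * (C0 / R) ^ 2 * (4 ^ G.Q * b)))) :=
    h2.trans (mul_le_mul_of_nonneg_left h3 (by positivity))
  have h5 : (2 * R * 2 ^ G.Q) ^ 2 * (d * (max C1 0 * ((M - l) ^ 2 * (C0 / R) ^ 2 * (4 ^ G.Q * b)))) =
      θ ^ 2 * ((4 * (2 ^ G.Q) ^ 2 * 4 ^ G.Q * max C1 0 * C0 ^ 2 / θ ^ 2) * ((M - l) ^ 2 * b * d)) := by
    field_simp
    ring
  rw [h5, mul_pow] at h4
  have h6 := le_of_mul_le_mul_left h4 (by positivity : (0 : ℝ) < θ ^ 2)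
  refine h6.trans ?_
  have h7 : 0 ≤ (M - l) ^ 2 * b * d := by positivity
  calc (4 * (2 ^ G.Q) ^ 2 * 4 ^ G.Q * max C1 0 * C0 ^ 2 / θ ^ 2) * ((M - l) ^ 2 * b * d)
      ≤ (4 * (2 ^ G.Q) ^ 2 * 4 ^ G.Q * max C1 0 * C0 ^ 2 / θ ^ 2 + 1) * ((M - l) ^ 2 * b * d) :=
        mul_le_mul_of_nonneg_right (by linarith) h7
    _ = _ := by ring

end Pool.Agent.CG
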