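import Pool.Agent.CG.C.Def
import Pool.Agent.CG.B.Chain

/-!
# CG-C-Quasi (helper66): Caccioppoli inequality for quasi-solutions

PLAN.  Let `k ≥ k0`, `η ∈ Test Ω`, `w = (v - k)_+` with gradient `W = 1_{v>k} V` (`HW.posPart`, `q = 2`).  Test with
`z = η² w`, `Z = η² • W + w • grad (η²)` (`HW.mul_smooth`, `Carnot.grad_sq`), supported in the compact `tsupport η ⊆ Ω`:
`test_ext` with `p = p' = 2` gives `∫ η² ⟨H, W⟩ = -2 ∫ η w ⟨H, grad η⟩` (split the integral: both terms are integrable, products of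
`L^2_loc` functions with bounded compactly supported ones).  On `{v > k}`: `c ‖V‖² ≤ ⟨H, V⟩`, `‖H‖ ≤ L ‖V‖`, and off `{v > k}` both
integrands vanish, so with `g = if k < v then ‖V‖² else 0`:
`c ∫ η² g ≤ 2 L ∫ |η| w √g ‖grad η‖ ≤ (c/2) ∫ η² g + (2 L²/c) ∫ w² ‖grad η‖²`
(pointwise `2 L a b ≤ (c/2) a² + (2 L²/c) b²`, `a = |η| √g`, `b = w ‖grad η‖`).  Subtract.
-/

set_option autoImplicit false

namespace Pool.Agent.CG

open MeasureTheory Set Filter Topology
open scoped ContDiff ENNReal

variable {N m : ℕ}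

/-- Quasi-solutions are in the De Giorgi class (the structure is only needed where `v > k0`). -/
theorem dg_of_quasi {G : Carnot N m} {Ω : Set (Pt N)} (hΩ : IsOpen Ω) {v : Pt N → ℝ}
    {V H : Pt N → Hv m} {k0 c L : ℝ} (hc : 0 < c) (hL : 0 ≤ L) (hv : HW G 2 Ω v V) (hH : LqLoc 2 Ω H)
    (h1 : ∀ᵐ x, x ∈ Ω → k0 < v x → ‖H x‖ ≤ L * ‖V x‖)
    (h2 : ∀ᵐ x, x ∈ Ω → k0 < v x → c * ‖V x‖ ^ 2 ≤ inner ℝ (H x) (V x))
    (h0 : ∀ φ : Pt N → ℝ, Test Ω φ → ∫ x, inner ℝ (H x) (G.grad φ x) = 0) :
    DG G Ω v V k0 (4 * L ^ 2 / c ^ 2) := by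
  have h12 : (1 : ℝ≥0∞) ≤ 2 := by norm_num
  refine { toHW := hv, cacc := ?_ }
  intro k hk η hη
  set w : Pt N → ℝ := fun x => max (v x - k) 0 with hw
  set W : Pt N → Hv m := fun x => if k < v x then V x else 0 with hW
  have hwW : HW G 2 Ω w W := hv.posPart hΩ h12 k
  have hηd : ∀ x, DifferentiableAt ℝ η x := fun x => hη.diff x
  have hz : HW G 2 Ω (fun x => η x ^ 2 * w x)
      (fun x => η x ^ 2 • W x + w x • G.grad (fun y => η y ^ 2) x) :=
    hwW.mul_smooth h12 (hη.smooth.pow 2)
  set Z : Pt N → Hv m := fun x => η x ^ 2 • W x + w x • G.grad (fun y => η y ^ 2) x with hZ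
  have hη0 : ∀ x, x ∉ tsupport η → η x = 0 := fun x hx => image_eq_zero_of_notMem_tsupport hx
  have hZ0 : ∀ x, x ∉ tsupport η → Z x = 0 := by
    intro x hx
    simp only [hZ]
    rw [G.grad_sq (hηd x), hη0 x hx]
    simp
  have hK : IsCompact (tsupport η) := hη.cpt
  have htest : ∫ x, inner ℝ (H x) (Z x) = 0 := by
    refine test_ext hΩ (p := 2) (p' := 2) h12 (by norm_num) inferInstance hH h0 hz hK hη.sub ?_ hZ0
    intro x hx
    rw [hη0 x hx]
    simp
  -- integrability
  have i1 : Integrable (fun x => inner ℝ (H x) (Z x)) := by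
    have e1 : Function.support (fun x => inner ℝ (H x) (Z x)) ⊆ tsupport η := by
      intro x hx
      by_contra hc'
      apply hx
      change inner ℝ (H x) (Z x) = 0
      rw [hZ0 x hc', inner_zero_right]
    rw [← integrableOn_iff_integrable_of_support_subset e1]
    have e2 : MemLp H 2 (volume.restrict (tsupport η)) := hH _ hK hη.sub
    have e3 : MemLp Z 2 (volume.restrict (tsupport η)) := hz.lqg _ hK hη.sub
    have e4 : Integrable (fun x => ‖H x‖ * ‖Z x‖) (volume.restrict (tsupport η)) :=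
      MemLp.integrable_mul e2.norm e3.norm
    refine Integrable.mono' e4 (e2.aestronglyMeasurable.inner e3.aestronglyMeasurable) ?_
    exact Eventually.of_forall fun x => norm_inner_le_norm (H x) (Z x)
  have i2 : Integrable (fun x => η x ^ 2 * (if k < v x then ‖V x‖ ^ 2 else 0)) := by
    have e1 : LqLoc 2 Ω (fun x => η x • W x) := hwW.lqg.bdd_smul hη.continuous.continuousOn
    have e2 : MemLp (fun x => η x • W x) 2 volume :=
      e1.memLp_of_zero hK hη.sub fun x hx => by rw [hη0 x hx, zero_smul]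
    have e3 := (memLp_two_iff_integrable_sq_norm e2.aestronglyMeasurable).1 e2
    refine e3.congr (Eventually.of_forall fun x => ?_)
    simp only [hW]
    rw [norm_smul, mul_pow, Real.norm_eq_abs, sq_abs]
    split_ifs with h
    · rfl
    · simp
  have i3 : Integrable (fun x => (max (v x - k) 0) ^ 2 * ‖G.grad η x‖ ^ 2) := by
    have e1 : LqLoc 2 Ω (fun x => ‖G.grad η x‖ • w x) :=
      hwW.lq.bdd_smul (hη.continuous_grad (G := G)).norm.continuousOn
    have e2 : MemLp (fun x => ‖G.grad η x‖ • w x) 2 volume :=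
      e1.memLp_of_zero hK hη.sub fun x hx => by rw [G.grad_eq_zero hx]; simp
    have e3 := e2.integrable_sq
    refine e3.congr (Eventually.of_forall fun x => ?_)
    simp only [hw, smul_eq_mul]
    ring
  -- the pointwise inequality
  have hpt : ∀ᵐ x, c / 2 * (η x ^ 2 * (if k < v x then ‖V x‖ ^ 2 else 0)) -
      2 * L ^ 2 / c * ((max (v x - k) 0) ^ 2 * ‖G.grad η x‖ ^ 2) ≤ inner ℝ (H x) (Z x) := by
    filter_upwards [h1, h2] with x g1 g2
    by_cases hx : x ∈ tsupport η
    · have hxΩ := hη.sub hx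
      simp only [hZ, hW, hw]
      rw [G.grad_sq (hηd x), inner_add_right, inner_smul_right, inner_smul_right, inner_smul_right]
      by_cases hkv : k < v x
      · rw [if_pos hkv, if_pos hkv]
        have g1' := g1 hxΩ (lt_of_le_of_lt hk hkv)
        have g2' := g2 hxΩ (lt_of_le_of_lt hk hkv)
        set W' : ℝ := max (v x - k) 0 with hW'
        have hW'0 : 0 ≤ W' := le_max_right _ _
        set a : ℝ := ‖V x‖ with ha
        set b : ℝ := ‖G.grad η x‖ with hb
        have ha0 : 0 ≤ a := norm_nonneg _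
        have hb0 : 0 ≤ b := norm_nonneg _
        have e1 : -(L * a * b) ≤ inner ℝ (H x) (G.grad η x) := by
          have := (abs_le.1 (abs_real_inner_le_norm (H x) (G.grad η x))).1
          have e2 : ‖H x‖ * b ≤ L * a * b := mul_le_mul_of_nonneg_right g1' hb0
          linarith
        have e1' : inner ℝ (H x) (G.grad η x) ≤ L * a * b := by
          have := (abs_le.1 (abs_real_inner_le_norm (H x) (G.grad η x))).2
          have e2 : ‖H x‖ * b ≤ L * a * b := mul_le_mul_of_nonneg_right g1' hb0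
          linarith
        -- `2 η w ⟨H, grad η⟩ ≥ - 2 |η| w L a b`
        have e3 : -(W' * (2 * |η x| * (L * a * b))) ≤
            W' * (2 * η x * inner ℝ (H x) (G.grad η x)) := by
          have e4 : |η x * inner ℝ (H x) (G.grad η x)| ≤ |η x| * (L * a * b) := by
            rw [abs_mul]
            exact mul_le_mul_of_nonneg_left (abs_le.2 ⟨e1, e1'⟩) (abs_nonneg _)
          have e5 := (abs_le.1 e4).1
          nlinarith
        have e4 : c * (η x ^ 2 * a ^ 2) ≤ η x ^ 2 * inner ℝ (H x) (V x) := by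
          have := mul_le_mul_of_nonneg_left g2' (sq_nonneg (η x))
          linarith
        -- Young
        have e5 : W' * (2 * |η x| * (L * a * b)) ≤
            c / 2 * (η x ^ 2 * a ^ 2) + 2 * L ^ 2 / c * (W' ^ 2 * b ^ 2) := by
          have e6 : 0 ≤ (c / 2 * (|η x| * a) - L * (W' * b)) ^ 2 * (2 / c) := by positivity
          have e7 : (c / 2 * (|η x| * a) - L * (W' * b)) ^ 2 * (2 / c) =
              c / 2 * (|η x| ^ 2 * a ^ 2) + 2 * L ^ 2 / c * (W' ^ 2 * b ^ 2) -
                W' * (2 * |η x| * (L * a * b)) := by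
            field_simp
            ring
          rw [sq_abs] at e7
          linarith
        linarith
      · rw [if_neg hkv, if_neg hkv, max_eq_right (by linarith : v x - k ≤ 0)]
        simp
    · rw [hZ0 x hx, inner_zero_right, hη0 x hx, G.grad_eq_zero hx]
      simp
  have hfin := integral_mono_ae ((i2.const_mul (c / 2)).sub (i3.const_mul (2 * L ^ 2 / c))) i1 hpt
  simp only [Pi.sub_apply] at hfin
  rw [htest, integral_sub (i2.const_mul (c / 2)) (i3.const_mul (2 * L ^ 2 / c)),
    integral_const_mul, integral_const_mul] at hfin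
  have h3 : c / 2 * (∫ x, η x ^ 2 * (if k < v x then ‖V x‖ ^ 2 else 0)) ≤
      c / 2 * (4 * L ^ 2 / c ^ 2 * ∫ x, (max (v x - k) 0) ^ 2 * ‖G.grad η x‖ ^ 2) := by
    have e1 : c / 2 * (4 * L ^ 2 / c ^ 2 * ∫ x, (max (v x - k) 0) ^ 2 * ‖G.grad η x‖ ^ 2) =
        2 * L ^ 2 / c * ∫ x, (max (v x - k) 0) ^ 2 * ‖G.grad η x‖ ^ 2 := by
      field_simp
      ring
    rw [e1]
    linarith
  exact le_of_mul_le_mul_left h3 (by positivity)

end Pool.Agent.CG
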