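import Pool.Agent.CG.C.Def
import Pool.Agent.CG.C.FK
import Pool.Agent.CG.B.Chain
import Pool.Agent.CG.A.Cut

/-!
# CG-C-SupStep (helper66): one step of the De Giorgi iteration

`f = η w`, `w = (v - l')_+`, `η` a cut-off function for `0 < r' < r`; Caccioppoli, Faber-Krahn and
Chebyshev.
-/

set_option autoImplicit false

namespace Pool.Agent.CG

open MeasureTheory Set Filter Topology
open scoped ContDiff ENNReal

variable {N m : ℕ}

/-- Energy bound for a cut off truncation. -/
theorem supStep_energy (G : Carnot N m) {C1 : ℝ} {x : Pt N} {R : ℝ} {v : Pt N → ℝ}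
    {V : Pt N → Hv m} {k0 : ℝ} (D : DG G (G.B x R) v V k0 C1) {l' r : ℝ} (hl : k0 ≤ l')
    (hrR : r ≤ R) {η : Pt N → ℝ} (hη : Test (G.B x r) η) :
    HW G 2 univ (fun y => η y * max (v y - l') 0)
      (fun y => η y • (if l' < v y then V y else 0) + (max (v y - l') 0) • G.grad η y) ∧
    MemLp (fun y => η y * max (v y - l') 0) 2 volume ∧
    MemLp (fun y => η y • (if l' < v y then V y else 0) + (max (v y - l') 0) • G.grad η y) 2 volume ∧
    ∫ y, ‖η y • (if l' < v y then V y else 0) + (max (v y - l') 0) • G.grad η y‖ ^ 2 ≤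
      2 * (max C1 0 + 1) * ∫ y, (max (v y - l') 0) ^ 2 * ‖G.grad η y‖ ^ 2 := by
  classical
  have hsub : G.B x r ⊆ G.B x R := fun y hy => lt_of_lt_of_le (G.mem_B.1 hy) hrR
  have hηR : Test (G.B x R) η := hη.mono hsub
  have hw := HW.posPart (G.isOpen_B x R) (by norm_num) D.toHW l'
  have hf := hw.mul_smooth (by norm_num) hη.smooth
  have z1 : ∀ y, y ∉ tsupport η → η y = 0 := fun y hy => image_eq_zero_of_notMem_tsupport hy
  have z2 : ∀ y, y ∉ tsupport η → G.grad η y = 0 := fun y hy => G.grad_eq_zero hy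
  have hu := HW.extend (G.isOpen_B x R) (by norm_num) hf hηR.cpt hηR.sub
    (fun y hy => by rw [z1 y hy, zero_mul]) (fun y hy => by rw [z1 y hy, z2 y hy]; simp)
  have m1 := hf.lq.memLp_of_zero hηR.cpt hηR.sub (fun y hy => by rw [z1 y hy, zero_mul])
  have m2 := hf.lqg.memLp_of_zero hηR.cpt hηR.sub (fun y hy => by rw [z1 y hy, z2 y hy]; simp)
  refine ⟨hu, m1, m2, ?_⟩
  have m3 : MemLp (fun y => η y • (if l' < v y then V y else 0)) 2 volume :=
    (hw.lqg.bdd_smul hηR.continuous.continuousOn).memLp_of_zero hηR.cpt hηR.sub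
      (fun y hy => by rw [z1 y hy, zero_smul])
  have m4 : MemLp (fun y => (max (v y - l') 0) • G.grad η y) 2 volume := by
    have := m2.sub m3
    refine this.ae_eq (Eventually.of_forall fun y => ?_)
    simp
  have i3 : Integrable (fun y => η y ^ 2 * (if l' < v y then ‖V y‖ ^ 2 else 0)) volume := by
    have h := (memLp_two_iff_integrable_sq_norm m3.1).1 m3
    refine h.congr (Eventually.of_forall fun y => ?_)
    show ‖η y • (if l' < v y then V y else 0)‖ ^ 2 = _
    rw [norm_smul, mul_pow, Real.norm_eq_abs, sq_abs]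
    by_cases h : l' < v y
    · simp [h]
    · simp [h]
  have i4 : Integrable (fun y => (max (v y - l') 0) ^ 2 * ‖G.grad η y‖ ^ 2) volume := by
    have h := (memLp_two_iff_integrable_sq_norm m4.1).1 m4
    refine h.congr (Eventually.of_forall fun y => ?_)
    show ‖(max (v y - l') 0) • G.grad η y‖ ^ 2 = _
    rw [norm_smul, mul_pow, Real.norm_eq_abs, sq_abs]
  have hc := D.cacc l' hl η hηR
  have h0 : 0 ≤ ∫ y, (max (v y - l') 0) ^ 2 * ‖G.grad η y‖ ^ 2 :=
    integral_nonneg fun y => by positivity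
  have hc' : ∫ y, η y ^ 2 * (if l' < v y then ‖V y‖ ^ 2 else 0) ≤
      max C1 0 * ∫ y, (max (v y - l') 0) ^ 2 * ‖G.grad η y‖ ^ 2 :=
    hc.trans (mul_le_mul_of_nonneg_right (le_max_left _ _) h0)
  calc ∫ y, ‖η y • (if l' < v y then V y else 0) + (max (v y - l') 0) • G.grad η y‖ ^ 2
      ≤ ∫ y, (2 * (η y ^ 2 * (if l' < v y then ‖V y‖ ^ 2 else 0)) +
          2 * ((max (v y - l') 0) ^ 2 * ‖G.grad η y‖ ^ 2)) := by
        refine integral_mono ((memLp_two_iff_integrable_sq_norm m2.1).1 m2)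
          ((i3.const_mul 2).add (i4.const_mul 2)) fun y => ?_
        have e1 : ‖η y • (if l' < v y then V y else 0)‖ ^ 2
            = η y ^ 2 * (if l' < v y then ‖V y‖ ^ 2 else 0) := by
          rw [norm_smul, mul_pow, Real.norm_eq_abs, sq_abs]
          by_cases h : l' < v y
          · simp [h]
          · simp [h]
        have e2 : ‖(max (v y - l') 0) • G.grad η y‖ ^ 2
            = (max (v y - l') 0) ^ 2 * ‖G.grad η y‖ ^ 2 := by
          rw [norm_smul, mul_pow, Real.norm_eq_abs, sq_abs]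
        have e3 := norm_add_le (η y • (if l' < v y then V y else 0)) ((max (v y - l') 0) • G.grad η y)
        have e4 := norm_nonneg (η y • (if l' < v y then V y else 0) + (max (v y - l') 0) • G.grad η y)
        show ‖_‖ ^ 2 ≤ 2 * _ + 2 * _
        rw [← e1, ← e2]
        nlinarith [sq_nonneg (‖η y • (if l' < v y then V y else 0)‖ -
          ‖(max (v y - l') 0) • G.grad η y‖)]
    _ = 2 * (∫ y, η y ^ 2 * (if l' < v y then ‖V y‖ ^ 2 else 0)) +
          2 * (∫ y, (max (v y - l') 0) ^ 2 * ‖G.grad η y‖ ^ 2) := by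
        rw [integral_add (i3.const_mul 2) (i4.const_mul 2), integral_const_mul, integral_const_mul]
    _ ≤ _ := by linarith

theorem sup_step (G : Carnot N m) (hQ : 1 ≤ G.Q) (C1 : ℝ) : ∃ C : ℝ, 0 < C ∧
    ∀ (x : Pt N) (R : ℝ), 0 < R → ∀ (v : Pt N → ℝ) (V : Pt N → Hv m) (k0 : ℝ), DG G (G.B x R) v V k0 C1 →
    ∀ (l l' r r' : ℝ), k0 ≤ l → l < l' → 0 < r' → r' < r → r ≤ R →
    IntegrableOn (fun y => (max (v y - l) 0) ^ 2) (G.B x r) →
    ∫ y in G.B x r', (max (v y - l') 0) ^ 2 ≤
      C * (r - r')⁻¹ ^ 2 * ((l' - l)⁻¹ ^ 2 * ∫ y in G.B x r, (max (v y - l) 0) ^ 2) ^ (2 / (G.Q : ℝ)) *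
        ∫ y in G.B x r, (max (v y - l) 0) ^ 2 := by
  classical
  obtain ⟨C0, hC0, hcut⟩ := G.exists_cutoff
  obtain ⟨CF, hCF, hFK⟩ := faber_krahn' G hQ
  have hK : 0 < 2 * (max C1 0 + 1) := by
    have := le_max_right C1 0
    linarith
  refine ⟨CF * (2 * (max C1 0 + 1)) * C0 ^ 2, by positivity, ?_⟩
  intro x R hR v V k0 D l l' r r' hkl hll hr' hrr hrR hint
  obtain ⟨η, hη, hη0, hη1, hηe, hηg⟩ := hcut x r' r hr' hrr
  obtain ⟨hu, m1, m2, hE⟩ := supStep_energy G D (hkl.trans hll.le) hrR hη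
  have hmB : MeasurableSet (G.B x r) := (G.isOpen_B x r).measurableSet
  have hmB' : MeasurableSet (G.B x r') := (G.isOpen_B x r').measurableSet
  have hd : 0 < l' - l := sub_pos.2 hll
  have hdr : 0 < r - r' := sub_pos.2 hrr
  -- the truncation at the higher level
  have hg0 : ∀ y, 0 ≤ max (v y - l) 0 := fun y => le_max_right _ _
  have hw0 : ∀ y, 0 ≤ max (v y - l') 0 := fun y => le_max_right _ _
  have hwg : ∀ y, max (v y - l') 0 ≤ max (v y - l) 0 := fun y =>
    max_le_max (by linarith) le_rfl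
  have hgm : AEStronglyMeasurable (fun y => max (v y - l) 0) (volume.restrict (G.B x r)) := by
    have h1 := Real.continuous_sqrt.comp_aestronglyMeasurable hint.1
    refine h1.congr (Eventually.of_forall fun y => ?_)
    exact Real.sqrt_sq (hg0 y)
  have hwm : AEStronglyMeasurable (fun y => max (v y - l') 0) (volume.restrict (G.B x r)) := by
    have h1 : Continuous fun t : ℝ => max (t - (l' - l)) 0 := by fun_prop
    have h2 := h1.comp_aestronglyMeasurable hgm
    refine h2.congr (Eventually.of_forall fun y => ?_)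
    show max (max (v y - l) 0 - (l' - l)) 0 = max (v y - l') 0
    rcases le_total (v y - l) 0 with h | h
    · rw [max_eq_right h, max_eq_right (by linarith), max_eq_right (by linarith)]
    · rw [max_eq_left h]
      congr 1
      ring
  have hwi : IntegrableOn (fun y => (max (v y - l') 0) ^ 2) (G.B x r) := by
    refine Integrable.mono' hint (hwm.pow 2) (Eventually.of_forall fun y => ?_)
    rw [Real.norm_eq_abs, abs_of_nonneg (sq_nonneg _)]
    exact pow_le_pow_left₀ (hw0 y) (hwg y) 2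
  have hIw : ∫ y in G.B x r, (max (v y - l') 0) ^ 2 ≤ ∫ y in G.B x r, (max (v y - l) 0) ^ 2 :=
    integral_mono hwi hint fun y => pow_le_pow_left₀ (hw0 y) (hwg y) 2
  have hI0 : 0 ≤ ∫ y in G.B x r, (max (v y - l) 0) ^ 2 := integral_nonneg fun y => sq_nonneg _
  -- energy
  have hgr : ∫ y, (max (v y - l') 0) ^ 2 * ‖G.grad η y‖ ^ 2 ≤
      (C0 / (r - r')) ^ 2 * ∫ y in G.B x r, (max (v y - l') 0) ^ 2 := by
    rw [← setIntegral_eq_integral_of_forall_compl_eq_zero (s := G.B x r), ← integral_const_mul]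
    · have hb : ∀ y, (max (v y - l') 0) ^ 2 * ‖G.grad η y‖ ^ 2 ≤
          (C0 / (r - r')) ^ 2 * (max (v y - l') 0) ^ 2 := fun y => by
        rw [mul_comm]
        exact mul_le_mul_of_nonneg_right (pow_le_pow_left₀ (norm_nonneg _) (hηg y) 2) (sq_nonneg _)
      refine integral_mono ?_ (hwi.const_mul _) hb
      refine Integrable.mono' (hwi.const_mul ((C0 / (r - r')) ^ 2))
        ((hwm.pow 2).mul ((hη.continuous_grad (G := G)).norm.pow 2).aestronglyMeasurable)
        (Eventually.of_forall fun y => ?_)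
      rw [Real.norm_eq_abs, abs_of_nonneg (by positivity)]
      exact hb y
    · intro y hy
      rw [hη.grad_eq_zero hy]
      simp
  -- Faber-Krahn
  have hset : {y | η y * max (v y - l') 0 ≠ 0} ⊆
      {y | (l' - l) ^ 2 ≤ (max (v y - l) 0) ^ 2} ∩ G.B x r := by
    intro y hy
    have h1 : η y ≠ 0 := left_ne_zero_of_mul hy
    have h2 : max (v y - l') 0 ≠ 0 := right_ne_zero_of_mul hy
    have h3 : y ∈ G.B x r := by
      by_contra h
      exact h1 (hη.eq_zero h)
    refine ⟨?_, h3⟩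
    have h4 : 0 < v y - l' := by
      by_contra h
      exact h2 (max_eq_right (not_lt.1 h))
    show (l' - l) ^ 2 ≤ (max (v y - l) 0) ^ 2
    refine pow_le_pow_left₀ hd.le ?_ 2
    exact le_trans (by linarith) (le_max_left _ _)
  have hfin : volume {y | η y * max (v y - l') 0 ≠ 0} ≠ ⊤ :=
    ne_top_of_le_ne_top (G.vol_B_lt_top x r).ne (measure_mono (hset.trans inter_subset_right))
  have hFK1 := hFK _ _ hu m1 m2 hfin
  have hcheb : volume.real {y | η y * max (v y - l') 0 ≠ 0} ≤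
      (l' - l)⁻¹ ^ 2 * ∫ y in G.B x r, (max (v y - l) 0) ^ 2 := by
    have h1 := mul_meas_ge_le_integral_of_nonneg (μ := volume.restrict (G.B x r))
      (f := fun y => (max (v y - l) 0) ^ 2) (Eventually.of_forall fun y => sq_nonneg _) hint
      ((l' - l) ^ 2)
    have h2 : volume.real {y | η y * max (v y - l') 0 ≠ 0} ≤
        (volume.restrict (G.B x r)).real {y | (l' - l) ^ 2 ≤ (max (v y - l) 0) ^ 2} := by
      rw [measureReal_def, measureReal_def, Measure.restrict_apply' hmB]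
      refine ENNReal.toReal_mono ?_ (measure_mono hset)
      exact ne_top_of_le_ne_top (G.vol_B_lt_top x r).ne (measure_mono inter_subset_right)
    rw [inv_pow, inv_mul_eq_div, le_div_iff₀ (by positivity), mul_comm]
    exact (mul_le_mul_of_nonneg_left h2 (sq_nonneg _)).trans h1
  have hQ0 : (0 : ℝ) ≤ 2 / (G.Q : ℝ) := by positivity
  -- left side
  have hleft : ∫ y in G.B x r', (max (v y - l') 0) ^ 2 ≤ ∫ y, (η y * max (v y - l') 0) ^ 2 := by
    have hi : Integrable (fun y => (η y * max (v y - l') 0) ^ 2) volume := by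
      have h := (memLp_two_iff_integrable_sq m1.1).1 m1
      exact h
    calc ∫ y in G.B x r', (max (v y - l') 0) ^ 2
        = ∫ y in G.B x r', (η y * max (v y - l') 0) ^ 2 := by
          refine setIntegral_congr_fun hmB' fun y hy => ?_
          show (max (v y - l') 0) ^ 2 = (η y * max (v y - l') 0) ^ 2
          rw [hηe y hy, one_mul]
      _ ≤ _ := setIntegral_le_integral hi (Eventually.of_forall fun y => sq_nonneg _)
  have hP : volume.real {y | η y * max (v y - l') 0 ≠ 0} ^ (2 / (G.Q : ℝ)) ≤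
      ((l' - l)⁻¹ ^ 2 * ∫ y in G.B x r, (max (v y - l) 0) ^ 2) ^ (2 / (G.Q : ℝ)) :=
    Real.rpow_le_rpow measureReal_nonneg hcheb hQ0
  have hP0 : 0 ≤ ((l' - l)⁻¹ ^ 2 * ∫ y in G.B x r, (max (v y - l) 0) ^ 2) ^ (2 / (G.Q : ℝ)) := by
    positivity
  have hE2 : ∫ y, ‖η y • (if l' < v y then V y else 0) + (max (v y - l') 0) • G.grad η y‖ ^ 2 ≤
      2 * (max C1 0 + 1) * ((C0 / (r - r')) ^ 2 * ∫ y in G.B x r, (max (v y - l) 0) ^ 2) := by
    refine hE.trans (mul_le_mul_of_nonneg_left ?_ hK.le)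
    exact hgr.trans (mul_le_mul_of_nonneg_left hIw (sq_nonneg _))
  have hE0 : 0 ≤ ∫ y, ‖η y • (if l' < v y then V y else 0) + (max (v y - l') 0) • G.grad η y‖ ^ 2 :=
    integral_nonneg fun y => sq_nonneg _
  calc ∫ y in G.B x r', (max (v y - l') 0) ^ 2
      ≤ ∫ y, (η y * max (v y - l') 0) ^ 2 := hleft
    _ ≤ _ := hFK1
    _ ≤ CF * ((l' - l)⁻¹ ^ 2 * ∫ y in G.B x r, (max (v y - l) 0) ^ 2) ^ (2 / (G.Q : ℝ)) *
        (2 * (max C1 0 + 1) * ((C0 / (r - r')) ^ 2 * ∫ y in G.B x r, (max (v y - l) 0) ^ 2)) := by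
        refine mul_le_mul (mul_le_mul_of_nonneg_left hP hCF.le) hE2 hE0 (by positivity)
    _ = _ := by
        have e : C0 / (r - r') = C0 * (r - r')⁻¹ := div_eq_mul_inv _ _
        rw [e]
        ring

end Pool.Agent.CG
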